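import Pool.Agent.Helper53.TC5.Model

/-!
# Threshold circuits with matrix products: the voters

`IsFree` (in `Helper53/TC5/Model.lean`): the voters that ignore the weights of one of the three
sides. `IsLow K`: the voters that are `K i j`-dimensional in each weight `i j` of the side `01`.
`IsTest K B`: the voters that lie in one of `2 ^ B i j` spaces of dimension `K i j` in each of these
weights.
`IsLocal t`: the functions of the weights in a set of cells with at most `t` triangles. `IsView t`:
the functions of the side `12` and of the weights in a set of cells with at most `t` pairs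
`i j`, `i k`.
-/

set_option autoImplicit false

open Finset

namespace Pool.Agent.Helper21.MP2

open Pool.Agent.Helper22.ETModel Pool.Agent.Helper8.VT Pool.Agent.Helper8.UV
open Pool.Agent.Helper53.TC5

variable {n : ℕ}

/-- The weights `w` with the weight `x` in the cells `(i, j)` and `(j, i)`. -/
def put (w : Wts n) (i j : Fin n) (x : ℤ) : Wts n := fun u v =>
  if (u = i ∧ v = j) ∨ (u = j ∧ v = i) then x else w u v

/-- `H` is `K i j`-dimensional in each weight `i j` between the classes `0` and `1` (the residues
modulo `3`): for all flags and all vertices `i`, `j` in these classes there are `K i j` functions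
`φ l` such that `H` is, as a function of the weight `x` of `i j`, for all fixed values of the other
weights, a linear combination of the functions `φ l` and a constant (the coefficients and the
constant are arbitrary functions of the other weights). -/
def IsLow (K : Fin n → Fin n → ℕ) (H : Inst n → ℝ) : Prop :=
  ∀ (f : Flags n) (i j : Fin n), (i : ℕ) % 3 = 0 → (j : ℕ) % 3 = 1 →
    ∃ φ : Fin (K i j) → ℤ → ℝ, ∀ w : Wts n, ∃ (c : ℝ) (d : Fin (K i j) → ℝ), ∀ x : ℤ,
      (⟨f, put w i j x⟩ : Inst n).Valid → H ⟨f, put w i j x⟩ = c + ∑ l, d l * φ l x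

/-- `H` lies in one of `2 ^ B i j` spaces of dimension `K i j` in each weight `i j` between the
classes `0` and `1`: for all flags and all vertices `i`, `j` in these classes there are
`2 ^ B i j` families `φ b` of `K i j` functions such that `H` is, as a function of the weight `x` of
`i j`, for all fixed values of the other weights, a linear combination of the functions `φ b l` of
one of the families and a constant (the coefficients, the constant and `b` are arbitrary functions
of the other weights). -/
def IsTest (K B : Fin n → Fin n → ℕ) (H : Inst n → ℝ) : Prop :=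
  ∀ (f : Flags n) (i j : Fin n), (i : ℕ) % 3 = 0 → (j : ℕ) % 3 = 1 →
    ∃ φ : Fin (2 ^ B i j) → Fin (K i j) → ℤ → ℝ, ∀ w : Wts n,
      ∃ (c : ℝ) (d : Fin (K i j) → ℝ) (b : Fin (2 ^ B i j)), ∀ x : ℤ,
        (⟨f, put w i j x⟩ : Inst n).Valid → H ⟨f, put w i j x⟩ = c + ∑ l, d l * φ b l x

/-- The sum of the numbers `K i j` over the pairs of vertices of the classes `0` and `1`. -/
def total (K : Fin n → Fin n → ℕ) : ℕ :=
  ∑ i : Fin n, ∑ j : Fin n, if (i : ℕ) % 3 = 0 ∧ (j : ℕ) % 3 = 1 then K i j else 0

/-- The cell `u v` belongs to the set `Q` of cells. -/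
def Has (Q : Finset (Fin n × Fin n)) (u v : Fin n) : Prop := (u, v) ∈ Q ∨ (v, u) ∈ Q

open Classical in
/-- The number of triangles `i j k` (with `i`, `j`, `k` in the classes `0`, `1`, `2`) with all three
cells in `Q`. -/
noncomputable def triangles (Q : Finset (Fin n × Fin n)) : ℕ :=
  (univ.filter fun t : Fin n × Fin n × Fin n => ((t.1 : ℕ) % 3 = 0 ∧ (t.2.1 : ℕ) % 3 = 1 ∧
    (t.2.2 : ℕ) % 3 = 2) ∧ Has Q t.1 t.2.1 ∧ Has Q t.2.1 t.2.2 ∧ Has Q t.1 t.2.2).card

open Classical in
/-- The number of triples `i j k` (with `i`, `j`, `k` in the classes `0`, `1`, `2`) with the cells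
`i j` and `i k` in `Q`. -/
noncomputable def pairs (Q : Finset (Fin n × Fin n)) : ℕ :=
  (univ.filter fun t : Fin n × Fin n × Fin n => ((t.1 : ℕ) % 3 = 0 ∧ (t.2.1 : ℕ) % 3 = 1 ∧
    (t.2.2 : ℕ) % 3 = 2) ∧ Has Q t.1 t.2.1 ∧ Has Q t.1 t.2.2).card

/-- `H` is an arbitrary function of the flags and of the weights in a set `Q` of cells (which may
depend on the flags) with at most `t` triangles. -/
def IsLocal (t : ℕ) (H : Inst n → ℝ) : Prop :=
  ∀ f : Flags n, ∃ Q : Finset (Fin n × Fin n), triangles Q ≤ t ∧ ∀ w w' : Wts n,
    (⟨f, w⟩ : Inst n).Valid → (⟨f, w'⟩ : Inst n).Valid →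
    (∀ u v : Fin n, Has Q u v → w u v = w' u v) → H ⟨f, w⟩ = H ⟨f, w'⟩

/-- `H` is an arbitrary function of the flags, of all the weights of the side `12` and of the
weights in a set `Q` of cells (which may depend on the flags) with at most `t` pairs `i j`, `i k`
of cells of the sides `01` and `02`. -/
def IsView (t : ℕ) (H : Inst n → ℝ) : Prop :=
  ∀ f : Flags n, ∃ Q : Finset (Fin n × Fin n), pairs Q ≤ t ∧ ∀ w w' : Wts n,
    (⟨f, w⟩ : Inst n).Valid → (⟨f, w'⟩ : Inst n).Valid →
    (∀ u v : Fin n, Side 1 2 u v ∨ Has Q u v → w u v = w' u v) → H ⟨f, w⟩ = H ⟨f, w'⟩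

/-- The price of a voter of a circuit that is correct on all instances: `0` for a voter that ignores
one of the three sides, the sum of the `K i j` for a voter that is `K i j`-dimensional in each
weight `i j` of the side `01`, and the number of triangles for a function of the weights in a set of
cells. -/
def PriceD (H : Inst n → ℝ) (κ : ℕ) : Prop :=
  (κ = 0 ∧ IsFree H) ∨ (∃ K : Fin n → Fin n → ℕ, IsLow K H ∧ κ = total K) ∨ IsLocal κ H

/-- The price of a voter of a random circuit: `0` for a voter that ignores one of the three sides,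
the sum of the `K i j + B i j` for a voter that lies in one of `2 ^ B i j` spaces of dimension
`K i j` in each weight `i j` of the side `01`, and the number of pairs `i j`, `i k` of cells of `Q` for a function
of the side `12` and of the weights in the set `Q` of cells. -/
def PriceR (H : Inst n → ℝ) (κ : ℕ) : Prop :=
  (κ = 0 ∧ IsFree H) ∨
    (∃ K B : Fin n → Fin n → ℕ, IsTest K B H ∧ κ = total K + total B) ∨ IsView κ H

/-- The sum of the traces of the `K` products `X r * Y r * Z r` of matrices whose entries are
arbitrary real functions of the weights of the three sides, entry by entry. -/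
noncomputable def traces {K : ℕ} (X Y Z : Fin K → Fin n → Fin n → ℤ → ℝ) (I : Inst n) : ℝ :=
  ∑ r, ∑ u : Fin n, ∑ v : Fin n, ∑ z : Fin n,
    if (u : ℕ) % 3 = 0 ∧ (v : ℕ) % 3 = 1 ∧ (z : ℕ) % 3 = 2 then
      X r u v (I.wt u v) * Y r v z (I.wt v z) * Z r z u (I.wt z u) else 0

/-- The sum over the cells `u v` of the side `01` of arbitrary real functions of the weight `w u v`
and of a string `h u v` of `B` bits, which is an arbitrary function of the flags and of the weights
of the two other sides (for example the bits of the entries `u v` of some matrix products). -/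
noncomputable def tests {B : ℕ} (g : Fin n → Fin n → ℤ → Fin (2 ^ B) → ℝ)
    (h : Fin n → Fin n → Flags n → Wts n → Fin (2 ^ B)) (I : Inst n) : ℝ :=
  ∑ u : Fin n, ∑ v : Fin n, if (u : ℕ) % 3 = 0 ∧ (v : ℕ) % 3 = 1 then
    g u v (I.wt u v) (h u v I.flag (hide 0 1 I.wt)) else 0

/-- An arbitrary real function of the flags, of all the weights of the two other sides and of `k`
bits `θ u v` for every cell `u v` of the side `01`, which are an arbitrary function of the weight
`w u v` and of a string `h u v` of `B` bits; this string is an arbitrary function of the flags and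
of the weights of the two other sides. -/
noncomputable def digest {k B : ℕ} (θ : Fin n → Fin n → ℤ → Fin (2 ^ B) → Fin (2 ^ k))
    (h : Fin n → Fin n → Flags n → Wts n → Fin (2 ^ B))
    (F : Flags n → Wts n → (Fin n → Fin n → Fin (2 ^ k)) → ℝ) (I : Inst n) : ℝ :=
  F I.flag (hide 0 1 I.wt) fun u v => if (u : ℕ) % 3 = 0 ∧ (v : ℕ) % 3 = 1 then
    θ u v (I.wt u v) (h u v I.flag (hide 0 1 I.wt)) else ⟨0, by positivity⟩

open Classical in
/-- The number of the functions `X r i j` that are not constant. -/
noncomputable def active {K : ℕ} (X : Fin K → Fin n → Fin n → ℤ → ℝ) (i j : Fin n) : ℕ :=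
  (univ.filter fun r : Fin K => ∃ x y : ℤ, X r i j x ≠ X r i j y).card

end Pool.Agent.Helper21.MP2
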