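import Pool.Agent.Helper21.MP.LowerR
import Pool.Agent.Helper56.MP.S1c
import Pool.Agent.Helper94.MP.Agree

/-!
# The lower bound for random circuits
-/

set_option autoImplicit false

namespace Pool.Agent.Helper21.MP2

open Pool.Agent.Helper22.ETModel Pool.Agent.Helper8.VT Pool.Agent.Helper8.UV
open Pool.Agent.Helper53.TC5

theorem starBound : StarBound := by
  intro α _ _ p _ D B Λ _ hΛ φ b U hU c d G hG
  exact Pool.Agent.Helper56.MP3.star_bound
    (@fun _ _ _ d B hd _ _ hΛ L hL G hG =>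
      Pool.Agent.Helper94.MP.agree_le d B hd hΛ L hL G hG)
    p hΛ φ b U hU c d G hG

theorem lower_rand (n : ℕ) (hn : 2 ^ 13 ≤ n) (Ω ι : Type) [Fintype Ω]
    [Nonempty Ω] [Fintype ι] (H : Ω → ι → Inst n → ℝ) (κ : Ω → ι → ℕ)
    (hκ : ∀ ω r, PriceR (H ω r) (κ ω r))
    (hdec : ∀ I : Inst n, I.Valid → Tripartite I → Decides H I) :
    (n : ℝ) ^ 3 ≤ 2 ^ 17 * ((∑ ω, ∑ r, (κ ω r : ℝ)) / Fintype.card Ω) :=
  lower_rand_of starBound n hn Ω ι H κ hκ hdec

end Pool.Agent.Helper21.MP2
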