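import Pool.Agent.Helper21.MP.Defs2
import Pool.Agent.Helper95.RV.Upper

/-!
# Functions of three weights (by helper53, with one more property)
-/

set_option autoImplicit false

open Finset

namespace Pool.Agent.Helper21.MP2.Three

open Pool.Agent.Helper22.ETModel Pool.Agent.Helper8.VT Pool.Agent.Helper8.UV
open Pool.Agent.Helper53.TC5 Pool.Agent.Helper21.MP2

/-! ### V2 -/

section V2

variable {n : ℕ}

/-- the vote `1` for the triangle `i j k` of sum `0` -/
private noncomputable def one (i j k : Fin n) (I : Inst n) : ℝ :=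
  if I.wt i j + I.wt j k + I.wt i k = 0 then 1 else 0

private def cells (i j k : Fin n) : Finset (Fin n × Fin n) := {(i, j), (j, k), (i, k)}

private lemma has_cells {i j k u v : Fin n} (h : Has (cells i j k) u v) :
    (u = i ∧ v = j) ∨ (u = j ∧ v = k) ∨ (u = i ∧ v = k) ∨
      (v = i ∧ u = j) ∨ (v = j ∧ u = k) ∨ (v = i ∧ u = k) := by
  unfold Has cells at h
  simp only [Finset.mem_insert, Finset.mem_singleton, Prod.mk.injEq] at h
  tauto

private lemma triangles_cells {i j k : Fin n} (hi : (i : ℕ) % 3 = 0) (hj : (j : ℕ) % 3 = 1)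
    (hk : (k : ℕ) % 3 = 2) : triangles (cells i j k) ≤ 1 := by
  classical
  unfold triangles
  refine Finset.card_le_one.2 ?_
  have key : ∀ t : Fin n × Fin n × Fin n, ((t.1 : ℕ) % 3 = 0 ∧ (t.2.1 : ℕ) % 3 = 1 ∧
      (t.2.2 : ℕ) % 3 = 2) ∧ Has (cells i j k) t.1 t.2.1 ∧ Has (cells i j k) t.2.1 t.2.2 ∧
        Has (cells i j k) t.1 t.2.2 → t = (i, j, k) := by
    rintro ⟨u, v, z⟩ ⟨⟨hu, hv, hz⟩, h1, h2, -⟩
    simp only at hu hv hz h1 h2
    have e1 : u = i ∧ v = j := by
      rcases has_cells h1 with h | h | h | h | h | h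
      · exact h
      all_goals
        obtain ⟨rfl, rfl⟩ := h
        omega
    have e2 : z = k := by
      rcases has_cells h2 with h | h | h | h | h | h
      · obtain ⟨rfl, rfl⟩ := h
        omega
      · exact h.2
      all_goals
        obtain ⟨rfl, rfl⟩ := h
        omega
    rw [e1.1, e1.2, e2]
  intro a ha b hb
  rw [Finset.mem_filter] at ha hb
  rw [key a ha.2, key b hb.2]

private lemma pairs_cells {i j k : Fin n} (hi : (i : ℕ) % 3 = 0) (hj : (j : ℕ) % 3 = 1)
    (hk : (k : ℕ) % 3 = 2) : pairs (cells i j k) ≤ 1 := by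
  classical
  unfold pairs
  refine Finset.card_le_one.2 ?_
  have key : ∀ t : Fin n × Fin n × Fin n, ((t.1 : ℕ) % 3 = 0 ∧ (t.2.1 : ℕ) % 3 = 1 ∧
      (t.2.2 : ℕ) % 3 = 2) ∧ Has (cells i j k) t.1 t.2.1 ∧ Has (cells i j k) t.1 t.2.2 →
        t = (i, j, k) := by
    rintro ⟨u, v, z⟩ ⟨⟨hu, hv, hz⟩, h1, h2⟩
    simp only at hu hv hz h1 h2
    have e1 : u = i ∧ v = j := by
      rcases has_cells h1 with h | h | h | h | h | h
      · exact h
      all_goals
        obtain ⟨rfl, rfl⟩ := h
        omega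
    have e2 : z = k := by
      rcases has_cells h2 with h | h | h | h | h | h
      · obtain ⟨rfl, rfl⟩ := h
        omega
      · obtain ⟨rfl, rfl⟩ := h
        omega
      · exact h.2
      all_goals
        obtain ⟨rfl, rfl⟩ := h
        omega
    rw [e1.1, e1.2, e2]
  intro a ha b hb
  rw [Finset.mem_filter] at ha hb
  rw [key a ha.2, key b hb.2]

private lemma one_congr {i j k : Fin n} {f : Flags n} {w w' : Wts n}
    (h : ∀ u v : Fin n, Has (cells i j k) u v → w u v = w' u v) :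
    one i j k ⟨f, w⟩ = one i j k ⟨f, w'⟩ := by
  have h1 := h i j (Or.inl (by simp [cells]))
  have h2 := h j k (Or.inl (by simp [cells]))
  have h3 := h i k (Or.inl (by simp [cells]))
  unfold one
  simp only [h1, h2, h3]

private lemma one_local {i j k : Fin n} (hi : (i : ℕ) % 3 = 0) (hj : (j : ℕ) % 3 = 1)
    (hk : (k : ℕ) % 3 = 2) : IsLocal 1 (one i j k) ∧ IsView 1 (one i j k) ∧
      ∃ u v z : Fin n, ∀ (f : Flags n) (w w' : Wts n), w u v = w' u v → w v z = w' v z →
        w u z = w' u z → one i j k ⟨f, w⟩ = one i j k ⟨f, w'⟩ := by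
  refine ⟨fun f => ⟨cells i j k, triangles_cells hi hj hk, fun w w' _ _ h => one_congr h⟩,
    fun f => ⟨cells i j k, pairs_cells hi hj hk, fun w w' _ _ h => one_congr fun u v huv =>
      h u v (Or.inr huv)⟩, i, j, k, fun f w w' h1 h2 h3 => ?_⟩
  unfold one
  simp only [h1, h2, h3]

private def c0 (a : Fin ((n + 2) / 3)) : Fin n := ⟨3 * a, by omega⟩
private def c1 (a : Fin ((n + 1) / 3)) : Fin n := ⟨3 * a + 1, by omega⟩
private def c2 (a : Fin (n / 3)) : Fin n := ⟨3 * a + 2, by omega⟩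

end V2

/-- One function of three weights for every triangle of the tripartite graph. -/
theorem upper_local (n : ℕ) :
    ∃ H : Fin ((n + 2) / 3 * ((n + 1) / 3) * (n / 3)) → Inst n → ℝ,
      (∀ r, IsLocal 1 (H r) ∧ IsView 1 (H r) ∧ ∃ u v z : Fin n, ∀ (f : Flags n) (w w' : Wts n),
        w u v = w' u v → w v z = w' v z → w u z = w' u z → H r ⟨f, w⟩ = H r ⟨f, w'⟩) ∧
      ∀ I : Inst n, I.Valid → Tripartite I → (0 < ∑ r, H r I ↔ I.Yes) := by
  refine ⟨fun r => one (c0 (finProdFinEquiv.symm (finProdFinEquiv.symm r).1).1)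
    (c1 (finProdFinEquiv.symm (finProdFinEquiv.symm r).1).2) (c2 (finProdFinEquiv.symm r).2),
    fun r => one_local ?_ ?_ ?_, fun I hI hT => ?_⟩
  · simp only [c0]
    omega
  · simp only [c1]
    omega
  · simp only [c2]
    omega
  rw [Pool.Agent.Helper95.RV.yes_iff I hI hT]
  have h0 : ∀ i j k : Fin n, 0 ≤ one i j k I := fun i j k => by
    unfold one
    split_ifs
    · exact zero_le_one
    · exact le_refl _
  constructor
  · intro h
    obtain ⟨r, _, hr⟩ := Finset.exists_ne_zero_of_sum_ne_zero h.ne'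
    unfold one at hr
    rw [ite_ne_right_iff] at hr
    refine ⟨_, _, _, ?_, ?_, ?_, hr.1⟩
    · simp only [c0]
      omega
    · simp only [c1]
      omega
    · simp only [c2]
      omega
  · rintro ⟨i, j, k, hi, hj, hk, h⟩
    have hin := i.isLt
    have hjn := j.isLt
    have hkn := k.isLt
    set r := finProdFinEquiv (finProdFinEquiv ((⟨(i : ℕ) / 3, by omega⟩ : Fin ((n + 2) / 3)),
      (⟨(j : ℕ) / 3, by omega⟩ : Fin ((n + 1) / 3))), (⟨(k : ℕ) / 3, by omega⟩ : Fin (n / 3)))
      with hr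
    refine Finset.sum_pos' (fun _ _ => h0 _ _ _) ⟨r, Finset.mem_univ _, ?_⟩
    beta_reduce
    rw [hr, Equiv.symm_apply_apply, Equiv.symm_apply_apply]
    have e0 : c0 (⟨(i : ℕ) / 3, by omega⟩ : Fin ((n + 2) / 3)) = i := by
      apply Fin.ext
      simp only [c0]
      omega
    have e1 : c1 (⟨(j : ℕ) / 3, by omega⟩ : Fin ((n + 1) / 3)) = j := by
      apply Fin.ext
      simp only [c1]
      omega
    have e2 : c2 (⟨(k : ℕ) / 3, by omega⟩ : Fin (n / 3)) = k := by
      apply Fin.ext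
      simp only [c2]
      omega
    rw [e0, e1, e2]
    unfold one
    rw [if_pos h]
    exact zero_lt_one

end Pool.Agent.Helper21.MP2.Three
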