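import Pool.Agent.Helper21.MP.Defs2

/-!
# Polynomials are low
-/

set_option autoImplicit false

open Finset

namespace Pool.Agent.Helper21.MP2

open Pool.Agent.Helper22.ETModel Pool.Agent.Helper8.VT Pool.Agent.Helper8.UV
open Pool.Agent.Helper53.TC5

theorem isLow_poly {n : ℕ} (p : MvPolynomial (Fin n × Fin n) ℝ) :
    IsLow (fun i j => p.degreeOf (i, j) + p.degreeOf (j, i))
      (fun I => MvPolynomial.eval (fun c => ((I.wt c.1 c.2 : ℤ) : ℝ)) p) := by
  classical
  intro f i j hi hj
  have hij : i ≠ j := by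
    rintro rfl
    omega
  set K := p.degreeOf (i, j) + p.degreeOf (j, i) with hK
  refine ⟨fun l x => (x : ℝ) ^ ((l : ℕ) + 1), fun w => ?_⟩
  let R : (Fin n × Fin n →₀ ℕ) → ℝ := fun m =>
    ∏ c : Fin n × Fin n, if c = (i, j) ∨ c = (j, i) then 1 else ((w c.1 c.2 : ℤ) : ℝ) ^ m c
  let e : (Fin n × Fin n →₀ ℕ) → ℕ := fun m => m (i, j) + m (j, i)
  have he : ∀ m ∈ p.support, e m ∈ range (K + 1) := by
    intro m hm
    rw [mem_range]
    have h1 := MvPolynomial.monomial_le_degreeOf (i, j) hm
    have h2 := MvPolynomial.monomial_le_degreeOf (j, i) hm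
    change m (i, j) + m (j, i) < K + 1
    omega
  refine ⟨∑ m ∈ p.support with e m = 0, p.coeff m * R m,
    fun l => ∑ m ∈ p.support with e m = (l : ℕ) + 1, p.coeff m * R m, fun x _ => ?_⟩
  have hprod : ∀ m : Fin n × Fin n →₀ ℕ,
      ∏ c : Fin n × Fin n, ((put w i j x c.1 c.2 : ℤ) : ℝ) ^ m c = (x : ℝ) ^ e m * R m := by
    intro m
    have h1 : ∀ c : Fin n × Fin n, ((put w i j x c.1 c.2 : ℤ) : ℝ) ^ m c =
        (if c = (i, j) then (x : ℝ) ^ m (i, j) else 1) *
          (if c = (j, i) then (x : ℝ) ^ m (j, i) else 1) *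
          (if c = (i, j) ∨ c = (j, i) then 1 else ((w c.1 c.2 : ℤ) : ℝ) ^ m c) := by
      intro c
      by_cases h2 : c = (i, j)
      · have h3 : c ≠ (j, i) := by
          rw [h2]
          intro h
          exact hij (Prod.mk.inj h).1
        subst h2
        unfold put
        rw [if_pos (Or.inl ⟨rfl, rfl⟩), if_pos rfl, if_neg h3, if_pos (Or.inl rfl), mul_one,
          mul_one]
      · by_cases h3 : c = (j, i)
        · subst h3
          unfold put
          rw [if_pos (Or.inr ⟨rfl, rfl⟩), if_neg h2, if_pos rfl, if_pos (Or.inr rfl), one_mul,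
            mul_one]
        · have h4 : ¬ ((c.1 = i ∧ c.2 = j) ∨ (c.1 = j ∧ c.2 = i)) := by
            rintro (h | h)
            · exact h2 (Prod.ext h.1 h.2)
            · exact h3 (Prod.ext h.1 h.2)
          unfold put
          rw [if_neg h4, if_neg h2, if_neg h3, if_neg (by tauto), one_mul, one_mul]
    rw [prod_congr rfl fun c _ => h1 c, prod_mul_distrib, prod_mul_distrib, prod_ite_eq',
      prod_ite_eq', if_pos (mem_univ _), if_pos (mem_univ _), ← pow_add]
  change MvPolynomial.eval (fun c => ((put w i j x c.1 c.2 : ℤ) : ℝ)) p = _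
  rw [MvPolynomial.eval_eq']
  rw [sum_congr rfl fun m _ => by rw [hprod m]]
  rw [← sum_fiberwise_of_maps_to he, sum_range_succ' _ K, add_comm]
  congr 1
  · refine sum_congr rfl fun m hm => ?_
    rw [(mem_filter.1 hm).2, pow_zero, one_mul]
  · rw [← Fin.sum_univ_eq_sum_range (fun t => ∑ m ∈ p.support with e m = t + 1,
      p.coeff m * ((x : ℝ) ^ e m * R m)) K]
    refine sum_congr rfl fun l _ => ?_
    rw [sum_mul]
    refine sum_congr rfl fun m hm => ?_
    rw [(mem_filter.1 hm).2]
    ring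

end Pool.Agent.Helper21.MP2
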