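import Pool.Agent.Helper53.TC5.Model

/-!
# Threshold circuits with matrix products: the voters

`IsFree` (in `Helper53/TC5/Model.lean`): the voters that ignore the weights of one of the three
sides. `IsLow K`: the voters that are `K`-dimensional in each weight of the side `01`. `IsLocal B`:
the functions of `B` weights.
-/

set_option autoImplicit false

namespace Pool.Agent.Helper21.MP

open Pool.Agent.Helper22.ETModel Pool.Agent.Helper8.VT Pool.Agent.Helper8.UV
open Pool.Agent.Helper53.TC5

variable {n : ℕ}

/-- The weights `w` with the weight `x` in the cells `(i, j)` and `(j, i)`. -/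
def put (w : Wts n) (i j : Fin n) (x : ℤ) : Wts n := fun u v =>
  if (u = i ∧ v = j) ∨ (u = j ∧ v = i) then x else w u v

/-- `H` is `K`-dimensional in each weight between the classes `0` and `1` (the residues modulo
`3`): for all flags and all vertices `i`, `j` in these classes there are `K` functions `φ l` such
that `H` is, as a function of the weight `x` of `i j`, for all fixed values of the other weights, a
linear combination of the functions `φ l` and a constant (the coefficients and the constant are
arbitrary functions of the other weights). -/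
def IsLow (K : ℕ) (H : Inst n → ℝ) : Prop :=
  ∀ (f : Flags n) (i j : Fin n), (i : ℕ) % 3 = 0 → (j : ℕ) % 3 = 1 →
    ∃ φ : Fin K → ℤ → ℝ, ∀ w : Wts n, ∃ (c : ℝ) (d : Fin K → ℝ), ∀ x : ℤ,
      (⟨f, put w i j x⟩ : Inst n).Valid → H ⟨f, put w i j x⟩ = c + ∑ l, d l * φ l x

/-- `H` is an arbitrary function of the flags and of the weights in at most `B` cells (which may
depend on the flags). -/
def IsLocal (B : ℕ) (H : Inst n → ℝ) : Prop :=
  ∀ f : Flags n, ∃ Q : Finset (Fin n × Fin n), Q.card ≤ B ∧ ∀ w w' : Wts n,
    (⟨f, w⟩ : Inst n).Valid → (⟨f, w'⟩ : Inst n).Valid →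
    (∀ p ∈ Q, w p.1 p.2 = w' p.1 p.2) → H ⟨f, w⟩ = H ⟨f, w'⟩

/-- `κ` is the price of the voter `H`: `0` for a voter that ignores one of the three sides,
`n ^ 2 * K` for a voter that is `K`-dimensional in each weight of the side `01`, `B * min B n` for a
function of `B` weights. -/
def PriceM (H : Inst n → ℝ) (κ : ℝ) : Prop :=
  (κ = 0 ∧ IsFree H) ∨ (∃ K : ℕ, IsLow K H ∧ κ = (n : ℝ) ^ 2 * K) ∨
    ∃ B : ℕ, IsLocal B H ∧ κ = (B : ℝ) * min (B : ℝ) n

/-- The sum of the traces of the `K` products `X r * Y r * Z r` of matrices whose entries are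
arbitrary real functions of the weights of the three sides, entry by entry. -/
noncomputable def traces {K : ℕ} (X Y Z : Fin K → Fin n → Fin n → ℤ → ℝ) (I : Inst n) : ℝ :=
  ∑ r, ∑ u : Fin n, ∑ v : Fin n, ∑ z : Fin n,
    if (u : ℕ) % 3 = 0 ∧ (v : ℕ) % 3 = 1 ∧ (z : ℕ) % 3 = 2 then
      X r u v (I.wt u v) * Y r v z (I.wt v z) * Z r z u (I.wt z u) else 0

end Pool.Agent.Helper21.MP
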