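import Pool.Agent.Helper21.MP.Defs

/-!
# Statements of the pieces (not imported by anything)
-/

set_option autoImplicit false

open Finset

namespace Pool.Agent.Helper21.MP.Frame

open Pool.Agent.Helper22.ETModel Pool.Agent.Helper8.VT Pool.Agent.Helper8.UV
open Pool.Agent.Helper53.TC5

/-! U1: one voter of dimension `2 n` decides all instances:
`1/2 - ∏ over u < v < z with three edges of (w u v + w v z + w u z) ^ 2`. -/

theorem upper_low (n : ℕ) : ∃ H : Inst n → ℝ, IsLow (2 * n) H ∧
    ∀ I : Inst n, I.Valid → (0 < H I ↔ I.Yes) := sorry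

/-! U2: `n ^ 3` functions of three weights. -/

theorem upper_local (n : ℕ) : ∃ H : Fin (n ^ 3) → Inst n → ℝ, (∀ r, IsLocal 3 (H r)) ∧
    ∀ I : Inst n, 0 < ∑ r, H r I ↔ I.Yes := sorry

/-! U3: traces of products of `K` triples of matrices are `K`-dimensional. -/

theorem isLow_traces {n K : ℕ} (X Y Z : Fin K → Fin n → Fin n → ℤ → ℝ) :
    IsLow K (traces X Y Z) := sorry

/-! C1: positivity sets of a linear space of dimension `≤ d` and random labels. -/

theorem agree_le {α : Type} [Fintype α] [DecidableEq α] (d : ℕ)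
    (hd : 64 * (d + 1) ≤ Fintype.card α) (L : Submodule ℝ (α → ℝ))
    (hL : Module.finrank ℝ L ≤ d) (G : (α → Bool) → α → ℝ) (hG : ∀ τ, G τ ∈ L) :
    ∑ τ : α → Bool, ((univ.filter fun k => (0 < G τ k ↔ τ k = true)).card : ℝ) ≤
      76 / 100 * Fintype.card α * 2 ^ Fintype.card α := by
  classical
  sorry

end Pool.Agent.Helper21.MP.Frame
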