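import Pool.Agent.Helper21.MP.Star2

/-!
# Statements of the pieces (not imported by anything)
-/

set_option autoImplicit false

open Finset

namespace Pool.Agent.Helper21.MP2.Frame

open Pool.Agent.Helper22.ETModel Pool.Agent.Helper8.VT Pool.Agent.Helper8.UV
open Pool.Agent.Helper53.TC5

/-! V1 (helper14): `1/2 - ∏ over i, j, k in the classes 0, 1, 2 of (w i j + w j k + w i k) ^ 2`. -/

theorem upper_low (n : ℕ) : ∃ H : Inst n → ℝ, IsLow (fun _ _ => 2 * (n / 3)) H ∧
    ∀ I : Inst n, I.Valid → Tripartite I → (0 < H I ↔ I.Yes) := sorry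

/-! V2 (helper53): one function of three weights for every triangle of the tripartite graph. -/

theorem upper_local (n : ℕ) :
    ∃ H : Fin ((n + 2) / 3 * ((n + 1) / 3) * (n / 3)) → Inst n → ℝ,
      (∀ r, IsLocal 1 (H r) ∧ IsView 1 (H r)) ∧
      ∀ I : Inst n, I.Valid → Tripartite I → (0 < ∑ r, H r I ↔ I.Yes) := sorry

/-! V3 (helper53): traces of products. -/

theorem isLow_traces {n K : ℕ} (X Y Z : Fin K → Fin n → Fin n → ℤ → ℝ) :
    IsLow (active X) (traces X Y Z) := sorry

/-! V4 (helper36): circuits that are correct on all instances. Proof for one pair `i`, `j`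
(`i`, `j` in the classes 0, 1), with the instances `gi i j σ σ' a` of `Star2.lean`:
`w i j = a`, `w j k = bit (σ k)`, `w i k = - 4 (k + 1) - bit (σ' k)`; for `a = 4 (k + 1)` (`k` in
the class 2) the answer is yes iff `σ k = σ' k`. Let `T i j` be the set of the `k` such that some
local voter has the triangle `i j k`, `K i j` the sum of the numbers `K r i j` of the low voters
`r`, `U` the complement of `T i j` in the class 2, and suppose `K i j + 2 ≤ #U`. There is
`lam : U → ℝ`, not zero, with `∑ lam k = 0` and `∑ lam k * φ r l (4 (k + 1)) = 0` for all `r`, `l`.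
Let `P` be the set of the `(σ, σ')` with `(σ k = σ' k) ↔ 0 < lam k` for all `k` in `U`, and `N` the
set with `(σ k = σ' k) ↔ ¬ 0 < lam k` for all `k` in `U`. Consider
`∑ over P of ∑ over k in U of lam k * H (4 (k + 1))` minus the same sum over `N`, where
`H = ∑ r, H r`. By the signs it is positive (at least one `lam k > 0`). But each voter contributes
`0`: a low voter and a voter that ignores the side 01 or a local voter without the cell `i j`, since
`∑ lam k = 0` and `∑ lam k φ = 0`, for each `(σ, σ')`; a voter that depends only on `a`, on `σ`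
on a set `S` and on `σ'` on a set `T` with `S ∩ T ∩ U = ∅` (voters that ignore 12: `S = ∅`, or 02:
`T = ∅`, local voters with the cell `i j`) since the involution that flips, for each `k` in `U`,
`σ k` if `k` is not in `S` and `σ' k` if `k` is in `S` maps `P` to `N` and does not change the
voter. So `#U ≤ K i j + 1`, `#(class 2) ≤ K i j + 1 + #T i j`; sum over the pairs `i`, `j`. -/

theorem lower_det (n : ℕ) (ι : Type) [Fintype ι] (H : ι → Inst n → ℝ) (κ : ι → ℕ)
    (hκ : ∀ r, PriceD (H r) (κ r))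
    (hH : ∀ I : Inst n, I.Valid → Tripartite I → (0 < ∑ r, H r I ↔ I.Yes)) :
    (n + 2) / 3 * ((n + 1) / 3) * (n / 3 - 1) ≤ ∑ r, κ r := sorry

/-! V5 (helper28): the price of a function of few weights. -/

theorem pairs_le {n : ℕ} (Q : Finset (Fin n × Fin n)) : pairs Q ≤ Q.card * min Q.card n := sorry

/-! V6 (helper53): tests. -/

theorem isTest_tests {n B : ℕ} (g : Fin n → Fin n → ℤ → Fin (2 ^ B) → ℝ)
    (h : Fin n → Fin n → Flags n → Wts n → Fin (2 ^ B)) :
    IsTest (fun _ _ => 1) (fun _ _ => B) (tests g h) := sorry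

/-! V7 (helper53): everything from `k` bits of every weight of the side `01`. -/

theorem isTest_digest {n k B : ℕ} (θ : Fin n → Fin n → ℤ → Fin (2 ^ B) → Fin (2 ^ k))
    (h : Fin n → Fin n → Flags n → Wts n → Fin (2 ^ B))
    (F : Flags n → Wts n → (Fin n → Fin n → Fin (2 ^ k)) → ℝ) :
    IsTest (fun _ _ => 2 ^ k) (fun _ _ => B) (digest θ h F) := sorry

/-! V8 (helper94): polynomials in the weights are low: `φ l x = x ^ (l + 1)`. -/

theorem isLow_poly {n : ℕ} (p : MvPolynomial (Fin n × Fin n) ℝ) :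
    IsLow (fun i j => p.degreeOf (i, j) + p.degreeOf (j, i))
      (fun I => MvPolynomial.eval (fun c => ((I.wt c.1 c.2 : ℤ) : ℝ)) p) := sorry

/-! C1' (helper5): positivity sets of `16 ^ B` linear spaces of dimension `≤ d`, random labels.
The number of positivity sets is at most `16 ^ B * ∑ i ≤ d, (m choose i)`. -/

theorem agree_le {α : Type} [Fintype α] [DecidableEq α] (d B : ℕ)
    (hd : 64 * (d + B + 1) ≤ Fintype.card α) {Λ : Type} [Fintype Λ]
    (hΛ : Fintype.card Λ ≤ 16 ^ B) (L : Λ → Submodule ℝ (α → ℝ))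
    (hL : ∀ b, Module.finrank ℝ (L b) ≤ d) (G : (α → Bool) → α → ℝ)
    (hG : ∀ τ, ∃ b, G τ ∈ L b) :
    ∑ τ : α → Bool, ((univ.filter fun k => (0 < G τ k ↔ τ k = true)).card : ℝ) ≤
      76 / 100 * Fintype.card α * 2 ^ Fintype.card α := sorry

/-! S1'' (helper56): as S1', but the family `φ` depends on `b`. -/

theorem star_bound
    (hag : ∀ {β : Type} [Fintype β] [DecidableEq β] (d B : ℕ),
      64 * (d + B + 1) ≤ Fintype.card β → ∀ {Λ : Type} [Fintype Λ],
      Fintype.card Λ ≤ 16 ^ B → ∀ L : Λ → Submodule ℝ (β → ℝ),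
      (∀ b, Module.finrank ℝ (L b) ≤ d) → ∀ G : (β → Bool) → β → ℝ,
      (∀ τ, ∃ b, G τ ∈ L b) →
      ∑ τ : β → Bool, ((univ.filter fun k => (0 < G τ k ↔ τ k = true)).card : ℝ) ≤
        76 / 100 * Fintype.card β * 2 ^ Fintype.card β)
    {α : Type} [Fintype α] [DecidableEq α] (p : α → Prop) [DecidablePred p] {D : ℕ}
    {B : ℕ} {Λ : Type} [Fintype Λ] (hΛ : Fintype.card Λ ≤ 16 ^ B)
    (φ : Λ → Fin D → α → ℝ) (b : (α → Bool) → Λ) (U : (α → Bool) → α → ℝ)
    (hU : ∀ τ τ' : α → Bool, (∀ k, p k → τ k = τ' k) → U τ = U τ')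
    (c : (α → Bool) → ℝ) (d : (α → Bool) → Fin D → ℝ) (G : (α → Bool) → α → ℝ)
    (hG : ∀ τ k, G τ k = c τ + ∑ l, d τ l * φ (b τ) l k + U τ k) :
    ∑ τ : α → Bool, ((univ.filter fun k => (0 < G τ k ↔ τ k = true)).card : ℝ) ≤
      2 ^ Fintype.card α * (76 / 100 * Fintype.card α +
        1 / 4 * ((univ.filter fun k => p k).card : ℝ) + 16 * (D + B + 3)) := sorry

end Pool.Agent.Helper21.MP2.Frame
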