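import Pool.Agent.Helper21.MP.Star

/-!
# Statements of the pieces S (not imported by anything)
-/

set_option autoImplicit false

open Finset

namespace Pool.Agent.Helper21.MP.Frame

open Pool.Agent.Helper22.ETModel Pool.Agent.Helper8.VT Pool.Agent.Helper8.UV
open Pool.Agent.Helper53.TC5

/-! S1 (helper56): from `agree_le` (C1, the hypothesis `hag`). Fix `τ` on `p`; on the complement
(`m - t` elements, `t = #p`) all `G τ` are in the span of the `φ l`, `1` and one function `U τ`: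
dimension `≤ D + 2`. If `64 (D + 3) ≤ m - t`: `agree_le` on the subtype, and `≤ t` on `p`.
Otherwise `m < t + 64 (D + 3)`, so `m ≤ .76 m + .24 (t + 64 (D + 3))`. -/

theorem star_bound
    (hag : ∀ {β : Type} [Fintype β] [DecidableEq β] (d : ℕ), 64 * (d + 1) ≤ Fintype.card β →
      ∀ L : Submodule ℝ (β → ℝ), Module.finrank ℝ L ≤ d →
      ∀ G : (β → Bool) → β → ℝ, (∀ τ, G τ ∈ L) →
      ∑ τ : β → Bool, ((univ.filter fun k => (0 < G τ k ↔ τ k = true)).card : ℝ) ≤
        76 / 100 * Fintype.card β * 2 ^ Fintype.card β)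
    {α : Type} [Fintype α] [DecidableEq α] (p : α → Prop) [DecidablePred p] {D : ℕ}
    (φ : Fin D → α → ℝ) (U : (α → Bool) → α → ℝ)
    (hU : ∀ τ τ' : α → Bool, (∀ k, p k → τ k = τ' k) → U τ = U τ')
    (c : (α → Bool) → ℝ) (d : (α → Bool) → Fin D → ℝ) (G : (α → Bool) → α → ℝ)
    (hG : ∀ τ k, G τ k = c τ + ∑ l, d τ l * φ l k + U τ k) :
    ∑ τ : α → Bool, ((univ.filter fun k => (0 < G τ k ↔ τ k = true)).card : ℝ) ≤
      2 ^ Fintype.card α * (76 / 100 * Fintype.card α +
        1 / 4 * ((univ.filter fun k => p k).card : ℝ) + 16 * (D + 3)) := sorry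

/-! S2 (helper28): the pairs of cells of `Q` with a common vertex of class `0`. -/

open Classical in
theorem touched_le {n : ℕ} (Q : Finset (Fin n × Fin n)) :
    ∑ i : {i : Fin n // (i : ℕ) % 3 = 0}, ∑ j : {j : Fin n // (j : ℕ) % 3 = 1},
      ((univ.filter fun k : {k : Fin n // (k : ℕ) % 3 = 2} =>
        Has Q i.1 j.1 ∧ Has Q i.1 k.1).card : ℝ) ≤ (Q.card : ℝ) * min (Q.card : ℝ) n := sorry

end Pool.Agent.Helper21.MP.Frame
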