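import Pool.Agent.Helper21.MP.Shape

/-!
# The lower bound for random circuits
-/

set_option autoImplicit false

open Finset

namespace Pool.Agent.Helper21.MP2

open Pool.Agent.Helper22.ETModel Pool.Agent.Helper8.VT Pool.Agent.Helper8.UV
open Pool.Agent.Helper53.TC5

/-- The statement of S1''. -/
def StarBound : Prop := ∀ {α : Type} [Fintype α] [DecidableEq α] (p : α → Prop) [DecidablePred p]
    {D : ℕ} {B : ℕ} {Λ : Type} [Fintype Λ], Fintype.card Λ ≤ 16 ^ B →
    ∀ (φ : Λ → Fin D → α → ℝ) (b : (α → Bool) → Λ) (U : (α → Bool) → α → ℝ),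
    (∀ τ τ' : α → Bool, (∀ k, p k → τ k = τ' k) → U τ = U τ') →
    ∀ (c : (α → Bool) → ℝ) (d : (α → Bool) → Fin D → ℝ) (G : (α → Bool) → α → ℝ),
    (∀ τ k, G τ k = c τ + ∑ l, d τ l * φ (b τ) l k + U τ k) →
    ∑ τ : α → Bool, ((univ.filter fun k => (0 < G τ k ↔ τ k = true)).card : ℝ) ≤
      2 ^ Fintype.card α * (76 / 100 * Fintype.card α +
        1 / 4 * ((univ.filter fun k => p k).card : ℝ) + 16 * (D + B + 3))

variable {n : ℕ}

/-- The class of residue `q`. -/
abbrev Cl (n q : ℕ) : Type := {k : Fin n // (k : ℕ) % 3 = q}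

theorem card_cl (n q : ℕ) (hq : q < 3) : Fintype.card (Cl n q) = (n + 2 - q) / 3 := by
  have e : Cl n q ≃ Fin ((n + 2 - q) / 3) :=
    { toFun := fun k => ⟨(k.1 : ℕ) / 3, by
        have h1 := k.1.isLt
        have h2 := k.2
        omega⟩
      invFun := fun t => ⟨⟨3 * (t : ℕ) + q, by
        have h1 := t.isLt
        omega⟩, by
        change (3 * (t : ℕ) + q) % 3 = q
        omega⟩
      left_inv := fun k => by
        apply Subtype.ext
        apply Fin.ext
        have h2 := k.2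
        change 3 * ((k.1 : ℕ) / 3) + q = k.1
        omega
      right_inv := fun t => by
        apply Fin.ext
        change (3 * (t : ℕ) + q) / 3 = t
        omega }
  rw [Fintype.card_congr e, Fintype.card_fin]

/-- The extension by `false`. -/
def ext (τ : Cl n 2 → Bool) : Fin n → Bool := fun k =>
  if h : (k : ℕ) % 3 = 2 then τ ⟨k, h⟩ else false

theorem ext_apply (τ : Cl n 2 → Bool) (k : Cl n 2) : ext τ k.1 = τ k := by
  unfold ext
  rw [dif_pos k.2]

/-- The points. -/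
def pt (k : Cl n 2) : ℤ := 4 * ((k.1 : ℕ) + 1 : ℤ)

theorem star_family (hsb : StarBound) (i j : Fin n) {ι : Type} [Fintype ι] (H : ι → Inst n → ℝ)
    (K B : ι → ℕ) (T : ι → Finset (Fin n)) (hS : ∀ r, ShapeR (H r) i j (K r) (B r) (T r)) :
    ∑ τ : Cl n 2 → Bool, ((univ.filter fun k : Cl n 2 =>
      (0 < ∑ r, Dl (H r) i j (ext τ) (pt k) ↔ τ k = true)).card : ℝ) ≤
    2 ^ Fintype.card (Cl n 2) * (76 / 100 * Fintype.card (Cl n 2) + 48 +
      64 * ((∑ r, (K r + B r + (T r).card) : ℕ) : ℝ)) := by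
  classical
  choose φ u hu hG using hS
  choose c d b hG using hG
  have hcard : Fintype.card (Σ r, Fin 4 × Fin (K r)) = 4 * ∑ r, K r := by
    rw [Fintype.card_sigma, mul_sum]
    simp
  let e : Fin (4 * ∑ r, K r) ≃ Σ r, Fin 4 × Fin (K r) := (Fintype.equivFinOfCardEq hcard).symm
  have hΛ : Fintype.card (∀ r, Fin 4 → Fin (2 ^ B r)) ≤ 16 ^ (∑ r, B r) := by
    rw [Fintype.card_pi, ← Finset.prod_pow_eq_pow_sum]
    refine le_of_eq (Finset.prod_congr rfl fun r _ => ?_)
    rw [Fintype.card_fun, Fintype.card_fin, Fintype.card_fin, ← pow_mul, mul_comm, pow_mul]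
    norm_num
  have h1 := hsb (α := Cl n 2) (fun k => ∃ r, k.1 ∈ T r) hΛ
    (fun b l k => φ (e l).1 (b (e l).1) (e l).2 (pt k))
    (fun τ r => b r (ext τ)) (fun τ k => ∑ r, u r (ext τ) (pt k))
    (fun τ τ' hτ => by
      funext k
      refine sum_congr rfl fun r _ => ?_
      rw [hu r (ext τ) (ext τ') fun k hk => ?_]
      unfold ext
      by_cases h : (k : ℕ) % 3 = 2
      · rw [dif_pos h, dif_pos h]
        exact hτ ⟨k, h⟩ ⟨r, hk⟩
      · rw [dif_neg h, dif_neg h])
    (fun τ => ∑ r, c r (ext τ)) (fun τ l => d (e l).1 (ext τ) (e l).2)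
    (fun τ k => ∑ r, Dl (H r) i j (ext τ) (pt k)) (fun τ k => by
      have h2 : ∑ l, d (e l).1 (ext τ) (e l).2 * φ (e l).1 (b (e l).1 (ext τ)) (e l).2 (pt k) =
          ∑ r, ∑ l, d r (ext τ) l * φ r (b r (ext τ)) l (pt k) := by
        rw [Equiv.sum_comp e (fun x => d x.1 (ext τ) x.2 * φ x.1 (b x.1 (ext τ)) x.2 (pt k)),
          Fintype.sum_sigma]
      rw [h2, ← sum_add_distrib, ← sum_add_distrib]
      exact sum_congr rfl fun r _ => hG r (ext τ) (pt k) (pt_abs k.1))
  refine h1.trans ?_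
  refine mul_le_mul_of_nonneg_left ?_ (by positivity)
  have h3 : (univ.filter fun k : Cl n 2 => ∃ r, k.1 ∈ T r).card ≤ ∑ r, (T r).card := by
    calc (univ.filter fun k : Cl n 2 => ∃ r, k.1 ∈ T r).card
        = ((univ.filter fun k : Cl n 2 => ∃ r, k.1 ∈ T r).image Subtype.val).card :=
          (card_image_of_injective _ Subtype.val_injective).symm
      _ ≤ (univ.biUnion T).card := by
          refine card_le_card fun k hk => ?_
          obtain ⟨k', hk', rfl⟩ := mem_image.1 hk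
          obtain ⟨r, hr⟩ := (mem_filter.1 hk').2
          exact mem_biUnion.2 ⟨r, mem_univ _, hr⟩
      _ ≤ _ := card_biUnion_le
  have h4 : ((univ.filter fun k : Cl n 2 => ∃ r, k.1 ∈ T r).card : ℝ) ≤ ∑ r, ((T r).card : ℝ) := by
    exact_mod_cast h3
  have h5 : (0 : ℝ) ≤ ∑ r, ((T r).card : ℝ) := by positivity
  have h6 : (0 : ℝ) ≤ ∑ r, (B r : ℝ) := by positivity
  push_cast
  rw [sum_add_distrib, sum_add_distrib]
  linarith

theorem card_filter_any {Ω : Type} (s : Finset Ω) (p : Ω → Prop) (h1 h2 : DecidablePred p) :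
    (@Finset.filter Ω p h1 s).card = (@Finset.filter Ω p h2 s).card := by
  have h : h1 = h2 := Subsingleton.elim _ _
  rw [h]

theorem four_right {Ω : Type} [Fintype Ω] (A : Fin 4 → Ω → Prop) [∀ s, DecidablePred (A s)]
    (hA : ∀ s, 19 * Fintype.card Ω ≤ 20 * (univ.filter (A s)).card) (X : Ω → Prop)
    [DecidablePred X] (hX : ∀ ω, (∀ s, A s ω) → X ω) :
    4 * Fintype.card Ω ≤ 5 * (univ.filter X).card := by
  classical
  have h1 : (univ : Finset Ω) ⊆ univ.filter X ∪ (univ : Finset (Fin 4)).biUnion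
      fun s => univ.filter fun ω => ¬ A s ω := by
    intro ω _
    by_cases h : ∀ s, A s ω
    · exact mem_union_left _ (mem_filter.2 ⟨mem_univ _, hX ω h⟩)
    · push Not at h
      obtain ⟨s, hs⟩ := h
      exact mem_union_right _ (mem_biUnion.2 ⟨s, mem_univ _, mem_filter.2 ⟨mem_univ _, hs⟩⟩)
  have h2 := (card_le_card h1).trans ((card_union_le _ _).trans
    (Nat.add_le_add_left card_biUnion_le _))
  rw [card_univ] at h2
  have h3 : ∀ s, (univ.filter (A s)).card + (univ.filter fun ω => ¬ A s ω).card =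
      Fintype.card Ω := fun s => by
    rw [← card_univ]
    exact card_filter_add_card_filter_not (A s)
  have h4 : ∀ s, 20 * (univ.filter fun ω => ¬ A s ω).card ≤ Fintype.card Ω := fun s => by
    have := h3 s
    have := hA s
    omega
  have h5 : 20 * ∑ s : Fin 4, (univ.filter fun ω => ¬ A s ω).card ≤ 4 * Fintype.card Ω := by
    rw [mul_sum]
    calc ∑ s : Fin 4, 20 * (univ.filter fun ω => ¬ A s ω).card
        ≤ ∑ _s : Fin 4, Fintype.card Ω := sum_le_sum fun s _ => h4 s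
      _ = 4 * Fintype.card Ω := by simp
  omega

/-- For each position the fourfold difference is right for four fifth of the circuits. -/
theorem right_often (hn : 3 ≤ n) {Ω ι : Type} [Fintype Ω] [Fintype ι] (H : Ω → ι → Inst n → ℝ)
    (hdec : ∀ I : Inst n, I.Valid → Tripartite I → Decides H I) (i j : Fin n)
    (hi : (i : ℕ) % 3 = 0) (hj : (j : ℕ) % 3 = 1) (τ : Cl n 2 → Bool) (k : Cl n 2) :
    4 * Fintype.card Ω ≤ 5 * (univ.filter fun ω : Ω =>
      (0 < ∑ r, Dl (H ω r) i j (ext τ) (pt k) ↔ τ k = true)).card := by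
  classical
  let I : Fin 4 → Inst n := ![ci i j (ext τ) true true (pt k), ci i j (ext τ) false false (pt k),
    ci i j (ext τ) true false (pt k), ci i j (ext τ) false true (pt k)]
  have hV : ∀ s, Decides H (I s) := by
    intro s
    fin_cases s <;> exact hdec _ (ci_valid hn _ _ _ _ _ _ (pt_abs k.1)) (ci_tripartite _ _ _ _ _ _)
  refine four_right (fun s ω => (0 < ∑ r, H ω r (I s) ↔ (I s).Yes)) ?_ _ ?_
  · intro s
    exact (hV s).trans (le_of_eq (congrArg (20 * ·) (card_filter_any _ _ _ _)))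
  · intro ω h
    have e0 : (I 0).Yes ↔ τ k = true := by
      rw [show I 0 = ci i j (ext τ) true true (pt k) from rfl]
      unfold pt
      rw [ci_yes hn i j hi hj _ _ _ k.1 k.2, ext_apply]
      cases τ k <;> simp
    have e1 : (I 1).Yes ↔ τ k = true := by
      rw [show I 1 = ci i j (ext τ) false false (pt k) from rfl]
      unfold pt
      rw [ci_yes hn i j hi hj _ _ _ k.1 k.2, ext_apply]
      cases τ k <;> simp
    have e2 : (I 2).Yes ↔ ¬ τ k = true := by
      rw [show I 2 = ci i j (ext τ) true false (pt k) from rfl]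
      unfold pt
      rw [ci_yes hn i j hi hj _ _ _ k.1 k.2, ext_apply]
      cases τ k <;> simp
    have e3 : (I 3).Yes ↔ ¬ τ k = true := by
      rw [show I 3 = ci i j (ext τ) false true (pt k) from rfl]
      unfold pt
      rw [ci_yes hn i j hi hj _ _ _ k.1 k.2, ext_apply]
      cases τ k <;> simp
    have h0 := (h 0).trans e0
    have h1 := (h 1).trans e1
    have h2 := (h 2).trans e2
    have h3 := (h 3).trans e3
    have hs : ∑ r, Dl (H ω r) i j (ext τ) (pt k) = ∑ r, H ω r (I 0) + ∑ r, H ω r (I 1) -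
        ∑ r, H ω r (I 2) - ∑ r, H ω r (I 3) := by
      rw [← sum_add_distrib, ← sum_sub_distrib, ← sum_sub_distrib]
      rfl
    rw [hs]
    by_cases ht : τ k = true
    · have g0 := h0.2 ht
      have g1 := h1.2 ht
      have g2 : ¬ 0 < ∑ r, H ω r (I 2) := fun g => (h2.1 g) ht
      have g3 : ¬ 0 < ∑ r, H ω r (I 3) := fun g => (h3.1 g) ht
      constructor
      · intro _
        exact ht
      · intro _
        linarith
    · have g0 : ¬ 0 < ∑ r, H ω r (I 0) := fun g => ht (h0.1 g)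
      have g1 : ¬ 0 < ∑ r, H ω r (I 1) := fun g => ht (h1.1 g)
      have g2 := h2.2 ht
      have g3 := h3.2 ht
      constructor
      · intro g
        exfalso
        linarith
      · intro g
        exact absurd g ht

theorem sum_cl (f : Fin n → Fin n → ℕ) :
    (∑ i : Cl n 0, ∑ j : Cl n 1, f i.1 j.1) =
      ∑ i : Fin n, ∑ j : Fin n, if (i : ℕ) % 3 = 0 ∧ (j : ℕ) % 3 = 1 then f i j else 0 := by
  classical
  have h1 : ∀ (q : ℕ) (g : Fin n → ℕ), ∑ i : Cl n q, g i.1 =
      ∑ i : Fin n, if (i : ℕ) % 3 = q then g i else 0 := by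
    intro q g
    rw [← sum_filter]
    exact (sum_subtype _ (fun x => by simp) g).symm
  rw [h1 0 (fun i => ∑ j : Cl n 1, f i j.1)]
  refine sum_congr rfl fun i _ => ?_
  rw [h1 1 (fun j => f i j)]
  by_cases hi : (i : ℕ) % 3 = 0
  · rw [if_pos hi]
    refine sum_congr rfl fun j _ => ?_
    refine if_congr ?_ rfl rfl
    tauto
  · rw [if_neg hi]
    symm
    refine sum_eq_zero fun j _ => if_neg ?_
    tauto

theorem numeric (x : ℝ) (hx : 8192 ≤ x) (X A B m : ℝ) (hA : x / 3 ≤ A) (hB : (x - 1) / 3 ≤ B)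
    (hm : (x - 2) / 3 ≤ m) (h : A * B * (4 / 100 * m - 48) ≤ 64 * X) : x ^ 3 ≤ 2 ^ 17 * X := by
  have h0 : 0 ≤ (x - 3602) / 75 := by linarith
  have h1 : (x - 3602) / 75 ≤ 4 / 100 * m - 48 := by linarith
  have h2 : x / 3 * ((x - 1) / 3) ≤ A * B :=
    mul_le_mul hA hB (by linarith) (by linarith)
  have h3 : x / 3 * ((x - 1) / 3) * ((x - 3602) / 75) ≤ A * B * (4 / 100 * m - 48) :=
    mul_le_mul h2 h1 h0 (mul_nonneg (by linarith) (by linarith))
  have h4 : x / 3 * ((x - 1) / 3) * ((x - 3602) / 75) ≤ 64 * X := h3.trans h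
  have h5 : 10800 * x ^ 2 ≤ 32768 * ((x - 1) * (x - 3602)) := by nlinarith
  have h6 : 10800 * x ^ 3 ≤ 32768 * (x * ((x - 1) * (x - 3602))) := by
    have := mul_le_mul_of_nonneg_left h5 (by linarith : (0 : ℝ) ≤ x)
    nlinarith
  nlinarith

theorem lower_rand_of (hsb : StarBound) (n : ℕ) (hn : 2 ^ 13 ≤ n) (Ω ι : Type) [Fintype Ω]
    [Nonempty Ω] [Fintype ι] (H : Ω → ι → Inst n → ℝ) (κ : Ω → ι → ℕ)
    (hκ : ∀ ω r, PriceR (H ω r) (κ ω r))
    (hdec : ∀ I : Inst n, I.Valid → Tripartite I → Decides H I) :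
    (n : ℝ) ^ 3 ≤ 2 ^ 17 * ((∑ ω, ∑ r, (κ ω r : ℝ)) / Fintype.card Ω) := by
  classical
  have hn3 : 3 ≤ n := le_trans (by norm_num) hn
  have hS : ∀ ω r, ∃ (K B : Fin n → Fin n → ℕ) (T : Fin n → Fin n → Finset (Fin n)),
      (∀ i j : Fin n, (i : ℕ) % 3 = 0 → (j : ℕ) % 3 = 1 →
        ShapeR (H ω r) i j (K i j) (B i j) (T i j)) ∧
      ∑ i : Fin n, ∑ j : Fin n, (if (i : ℕ) % 3 = 0 ∧ (j : ℕ) % 3 = 1 then
        K i j + B i j + (T i j).card else 0) ≤ κ ω r :=
    fun ω r => shape_price hn3 _ _ (hκ ω r)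
  choose K B T hS hP using hS
  set M := Fintype.card (Cl n 2) with hM
  let X : Ω → Cl n 0 → Cl n 1 → (Cl n 2 → Bool) → Cl n 2 → Prop := fun ω i j τ k =>
    (0 < ∑ r, Dl (H ω r) i.1 j.1 (ext τ) (pt k) ↔ τ k = true)
  let P : Ω → Cl n 0 → Cl n 1 → ℕ := fun ω i j =>
    ∑ r, (K ω r i.1 j.1 + B ω r i.1 j.1 + (T ω r i.1 j.1).card)
  -- upper bound
  have hup : ∀ ω i j, ∑ τ, ((univ.filter fun k => X ω i j τ k).card : ℝ) ≤
      2 ^ M * (76 / 100 * M + 48 + 64 * (P ω i j : ℝ)) := fun ω i j =>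
    star_family hsb i.1 j.1 (H ω) (fun r => K ω r i.1 j.1) (fun r => B ω r i.1 j.1)
      (fun r => T ω r i.1 j.1) (fun r => hS ω r i.1 j.1 i.2 j.2)
  -- lower bound
  have hlow : ∀ i j, 2 ^ M * (M : ℝ) * (4 / 5 * Fintype.card Ω) ≤
      ∑ ω, ∑ τ, ((univ.filter fun k => X ω i j τ k).card : ℝ) := by
    intro i j
    have h1 : ∑ ω, ∑ τ, ((univ.filter fun k => X ω i j τ k).card : ℝ) =
        ∑ τ, ∑ k, ((univ.filter fun ω => X ω i j τ k).card : ℝ) := by
      rw [sum_comm]
      refine sum_congr rfl fun τ _ => ?_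
      simp_rw [natCast_card_filter]
      rw [sum_comm]
    rw [h1]
    calc 2 ^ M * (M : ℝ) * (4 / 5 * Fintype.card Ω)
        = ∑ _τ : Cl n 2 → Bool, ∑ _k : Cl n 2, (4 / 5 * (Fintype.card Ω : ℝ)) := by
          rw [sum_const, sum_const, card_univ, card_univ, Fintype.card_fun, Fintype.card_bool,
            nsmul_eq_mul, nsmul_eq_mul, ← hM]
          push_cast
          ring
      _ ≤ _ := by
          refine sum_le_sum fun τ _ => sum_le_sum fun k _ => ?_
          have h2 := right_often hn3 H hdec i.1 j.1 i.2 j.2 τ k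
          have h3 : (4 : ℝ) * Fintype.card Ω ≤ 5 * (univ.filter fun ω => X ω i j τ k).card := by
            exact_mod_cast h2
          linarith
  -- the prices
  have hprice : (∑ ω, ∑ i, ∑ j, (P ω i j : ℝ)) ≤ ∑ ω, ∑ r, (κ ω r : ℝ) := by
    refine sum_le_sum fun ω _ => ?_
    have h1 : ∑ i, ∑ j, P ω i j ≤ ∑ r, κ ω r := by
      calc ∑ i, ∑ j, P ω i j
          = ∑ r, ∑ i : Cl n 0, ∑ j : Cl n 1,
            (K ω r i.1 j.1 + B ω r i.1 j.1 + (T ω r i.1 j.1).card) :=
            (sum_congr rfl fun i _ => sum_comm).trans sum_comm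
        _ ≤ _ := sum_le_sum fun r _ => by
            rw [sum_cl (fun i j => K ω r i j + B ω r i j + (T ω r i j).card)]
            exact hP ω r
    exact_mod_cast h1
  have hc0 : Fintype.card (Cl n 0) = (n + 2) / 3 := card_cl n 0 (by norm_num)
  have hc1 : Fintype.card (Cl n 1) = (n + 1) / 3 := card_cl n 1 (by norm_num)
  have hc2 : M = n / 3 := card_cl n 2 (by norm_num)
  have hΩ : (0 : ℝ) < Fintype.card Ω := by exact_mod_cast Fintype.card_pos
  have hmain : (Fintype.card (Cl n 0) : ℝ) * Fintype.card (Cl n 1) * (4 / 100 * M - 48) ≤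
      64 * ((∑ ω, ∑ r, (κ ω r : ℝ)) / Fintype.card Ω) := by
    have h1 : (Fintype.card (Cl n 0) : ℝ) * Fintype.card (Cl n 1) *
        (2 ^ M * (M : ℝ) * (4 / 5 * Fintype.card Ω)) ≤
        ∑ ω, ∑ i, ∑ j, ∑ τ, ((univ.filter fun k => X ω i j τ k).card : ℝ) := by
      calc (Fintype.card (Cl n 0) : ℝ) * Fintype.card (Cl n 1) *
            (2 ^ M * (M : ℝ) * (4 / 5 * Fintype.card Ω))
          = ∑ _i : Cl n 0, ∑ _j : Cl n 1, (2 ^ M * (M : ℝ) * (4 / 5 * Fintype.card Ω)) := by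
            rw [sum_const, sum_const, card_univ, card_univ, nsmul_eq_mul, nsmul_eq_mul]
            ring
        _ ≤ ∑ i, ∑ j, ∑ ω, ∑ τ, ((univ.filter fun k => X ω i j τ k).card : ℝ) :=
            sum_le_sum fun i _ => sum_le_sum fun j _ => hlow i j
        _ = _ := by
            simp_rw [sum_comm (s := (univ : Finset (Cl n 1))) (t := (univ : Finset Ω))]
            rw [sum_comm]
    have h2 : ∑ ω, ∑ i, ∑ j, ∑ τ, ((univ.filter fun k => X ω i j τ k).card : ℝ) ≤
        2 ^ M * (Fintype.card Ω * Fintype.card (Cl n 0) * Fintype.card (Cl n 1) *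
          (76 / 100 * M + 48) + 64 * ∑ ω, ∑ r, (κ ω r : ℝ)) := by
      calc ∑ ω, ∑ i, ∑ j, ∑ τ, ((univ.filter fun k => X ω i j τ k).card : ℝ)
          ≤ ∑ ω : Ω, ∑ i : Cl n 0, ∑ j : Cl n 1,
            (2 ^ M * (76 / 100 * M + 48 + 64 * (P ω i j : ℝ))) :=
            sum_le_sum fun ω _ => sum_le_sum fun i _ => sum_le_sum fun j _ => hup ω i j
        _ = 2 ^ M * (Fintype.card Ω * Fintype.card (Cl n 0) * Fintype.card (Cl n 1) *
          (76 / 100 * M + 48) + 64 * ∑ ω, ∑ i, ∑ j, (P ω i j : ℝ)) := by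
            simp_rw [← mul_sum, sum_add_distrib, ← mul_sum, sum_const, card_univ, nsmul_eq_mul]
            ring
        _ ≤ _ := by
            refine mul_le_mul_of_nonneg_left ?_ (by positivity)
            linarith
    have h3 := h1.trans h2
    have h4 : (0 : ℝ) < 2 ^ M := by positivity
    have h5 : (Fintype.card (Cl n 0) : ℝ) * Fintype.card (Cl n 1) *
        ((M : ℝ) * (4 / 5 * Fintype.card Ω)) ≤
        (Fintype.card Ω * Fintype.card (Cl n 0) * Fintype.card (Cl n 1) *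
          (76 / 100 * M + 48) + 64 * ∑ ω, ∑ r, (κ ω r : ℝ)) := by
      refine le_of_mul_le_mul_left ?_ h4
      calc _ = (Fintype.card (Cl n 0) : ℝ) * Fintype.card (Cl n 1) *
        (2 ^ M * (M : ℝ) * (4 / 5 * Fintype.card Ω)) := by ring
        _ ≤ _ := h3
    rw [← mul_div_assoc, le_div_iff₀ hΩ]
    linarith
  refine numeric n (by exact_mod_cast hn) _ _ _ _ ?_ ?_ ?_ hmain
  · rw [hc0]
    have : n ≤ 3 * ((n + 2) / 3) := by omega
    have h : (n : ℝ) ≤ 3 * (((n + 2) / 3 : ℕ) : ℝ) := by exact_mod_cast this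
    linarith
  · rw [hc1]
    have : n ≤ 3 * ((n + 1) / 3) + 1 := by omega
    have h : (n : ℝ) ≤ 3 * (((n + 1) / 3 : ℕ) : ℝ) + 1 := by exact_mod_cast this
    linarith
  · rw [hc2]
    have : n ≤ 3 * (n / 3) + 2 := by omega
    have h : (n : ℝ) ≤ 3 * ((n / 3 : ℕ) : ℝ) + 2 := by exact_mod_cast this
    linarith

end Pool.Agent.Helper21.MP2
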