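import Pool.Agent.Helper21.MP.Star2

/-!
# What the voters see
-/

set_option autoImplicit false

open Finset

namespace Pool.Agent.Helper21.MP2

open Pool.Agent.Helper22.ETModel Pool.Agent.Helper8.VT Pool.Agent.Helper8.UV
open Pool.Agent.Helper53.TC5

variable {n : ℕ}

/-- The corners. -/
def ci (i j : Fin n) (τ : Fin n → Bool) (e d : Bool) (a : ℤ) : Inst n :=
  gi i j (fun _ => e) (fun v => d == τ v) a

theorem ci_valid (hn : 3 ≤ n) (i j : Fin n) (τ : Fin n → Bool) (e d : Bool) (a : ℤ)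
    (ha : |a| ≤ 100 * n) : (ci i j τ e d a).Valid := gi_valid hn _ _ _ _ _ ha

theorem ci_tripartite (i j : Fin n) (τ : Fin n → Bool) (e d : Bool) (a : ℤ) :
    Tripartite (ci i j τ e d a) := gi_tripartite _ _ _ _ _

theorem ci_yes (hn : 3 ≤ n) (i j : Fin n) (hi : (i : ℕ) % 3 = 0) (hj : (j : ℕ) % 3 = 1)
    (τ : Fin n → Bool) (e d : Bool) (k : Fin n) (hk : (k : ℕ) % 3 = 2) :
    (ci i j τ e d (4 * ((k : ℕ) + 1 : ℤ))).Yes ↔ (e == d) = τ k := by
  unfold ci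
  rw [gi_yes hn i j hi hj _ _ k hk]
  cases e <;> cases d <;> cases τ k <;> simp

/-- The fourfold difference. -/
def Dl (H : Inst n → ℝ) (i j : Fin n) (τ : Fin n → Bool) (a : ℤ) : ℝ :=
  H (ci i j τ true true a) + H (ci i j τ false false a) - H (ci i j τ true false a) -
    H (ci i j τ false true a)

/-- The form of the fourfold difference of a voter. -/
def ShapeR (H : Inst n → ℝ) (i j : Fin n) (K B : ℕ) (T : Finset (Fin n)) : Prop :=
  ∃ (φ : (Fin 4 → Fin (2 ^ B)) → Fin 4 × Fin K → ℤ → ℝ) (u : (Fin n → Bool) → ℤ → ℝ),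
    (∀ τ τ' : Fin n → Bool, (∀ k ∈ T, τ k = τ' k) → u τ = u τ') ∧
    ∀ τ, ∃ (c : ℝ) (d : Fin 4 × Fin K → ℝ) (b : Fin 4 → Fin (2 ^ B)), ∀ a : ℤ, |a| ≤ 100 * n →
      Dl H i j τ a = c + ∑ l, d l * φ b l a + u τ a

theorem shape_const (hn : 3 ≤ n) (H : Inst n → ℝ) (i j : Fin n)
    (h : ∀ (τ : Fin n → Bool) (e d : Bool) (a : ℤ), |a| ≤ 100 * n →
      H (ci i j τ e d a) = H (ci i j τ e d 0))
    (T : Finset (Fin n)) : ShapeR H i j 0 0 T := by
  refine ⟨fun _ l => l.2.elim0, fun _ _ => 0, fun _ _ _ => rfl, fun τ => ?_⟩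
  refine ⟨Dl H i j τ 0, fun l => l.2.elim0, fun _ => 0, fun a ha => ?_⟩
  unfold Dl
  rw [h _ _ _ a ha, h _ _ _ a ha, h _ _ _ a ha, h _ _ _ a ha]
  simp

theorem shape_of_T (hn : 3 ≤ n) (H : Inst n → ℝ) (i j : Fin n) (T : Finset (Fin n))
    (h : ∀ τ τ' : Fin n → Bool, (∀ k ∈ T, τ k = τ' k) → ∀ (e d : Bool) (a : ℤ), |a| ≤ 100 * n →
      H (ci i j τ e d a) = H (ci i j τ' e d a)) : ShapeR H i j 0 0 T := by
  classical
  refine ⟨fun _ l => l.2.elim0,
    fun τ a => if |a| ≤ 100 * n then Dl H i j τ a else 0, fun τ τ' hτ => ?_, fun τ => ?_⟩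
  · funext a
    change (if |a| ≤ 100 * n then Dl H i j τ a else 0) =
      if |a| ≤ 100 * n then Dl H i j τ' a else 0
    by_cases ha : |a| ≤ 100 * n
    · rw [if_pos ha, if_pos ha]
      unfold Dl
      rw [h τ τ' hτ _ _ a ha, h τ τ' hτ _ _ a ha, h τ τ' hτ _ _ a ha, h τ τ' hτ _ _ a ha]
    · rw [if_neg ha, if_neg ha]
  · refine ⟨0, fun l => l.2.elim0, fun _ => 0, fun a ha => ?_⟩
    simp [ha]

theorem shape_free (hn : 3 ≤ n) (H : Inst n → ℝ) (hH : IsFree H) (i j : Fin n) :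
    ShapeR H i j 0 0 ∅ := by
  obtain ⟨p, q, hpq, hq, hI⟩ := ign_of_free H hH
  have hcase : (p = 0 ∧ q = 1) ∨ (p = 1 ∧ q = 2) ∨ (p = 0 ∧ q = 2) := by omega
  rcases hcase with ⟨rfl, rfl⟩ | ⟨rfl, rfl⟩ | ⟨rfl, rfl⟩
  · refine shape_const hn H i j (fun τ e d a ha => ?_) ∅
    have h0 : |(0 : ℤ)| ≤ 100 * n := by simp
    refine hI _ _ (ci_valid hn i j τ e d a ha) (ci_valid hn i j τ e d 0 h0) rfl fun u v hs => ?_
    change ws i j _ _ a u v = ws i j _ _ 0 u v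
    unfold ws wo
    have h1 : ¬ ((u : ℕ) % 3 = 0 ∧ (v : ℕ) % 3 = 1) := fun h => hs (Or.inl h)
    have h2 : ¬ ((v : ℕ) % 3 = 0 ∧ (u : ℕ) % 3 = 1) := fun h => hs (Or.inr ⟨h.2, h.1⟩)
    simp only [if_neg h1, if_neg h2]
  · refine ⟨fun _ l => l.2.elim0, fun _ _ => 0, fun _ _ _ => rfl, fun τ => ?_⟩
    refine ⟨0, fun l => l.2.elim0, fun _ => 0, fun a ha => ?_⟩
    have key : ∀ d, H (ci i j τ true d a) = H (ci i j τ false d a) := by
      intro d
      refine hI _ _ (ci_valid hn i j τ _ d a ha) (ci_valid hn i j τ _ d a ha) rfl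
        fun u v hs => ?_
      change ws i j _ _ a u v = ws i j _ _ a u v
      unfold ws wo
      have h1 : ¬ ((u : ℕ) % 3 = 1 ∧ (v : ℕ) % 3 = 2) := fun h => hs (Or.inl h)
      have h2 : ¬ ((v : ℕ) % 3 = 1 ∧ (u : ℕ) % 3 = 2) := fun h => hs (Or.inr ⟨h.2, h.1⟩)
      simp only [if_neg h1, if_neg h2]
    unfold Dl
    rw [key, key]
    simp
  · refine ⟨fun _ l => l.2.elim0, fun _ _ => 0, fun _ _ _ => rfl, fun τ => ?_⟩
    refine ⟨0, fun l => l.2.elim0, fun _ => 0, fun a ha => ?_⟩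
    have key : ∀ e, H (ci i j τ e true a) = H (ci i j τ e false a) := by
      intro e
      refine hI _ _ (ci_valid hn i j τ e _ a ha) (ci_valid hn i j τ e _ a ha) rfl
        fun u v hs => ?_
      change ws i j _ _ a u v = ws i j _ _ a u v
      unfold ws wo
      have h1 : ¬ ((u : ℕ) % 3 = 0 ∧ (v : ℕ) % 3 = 2) := fun h => hs (Or.inl h)
      have h2 : ¬ ((v : ℕ) % 3 = 0 ∧ (u : ℕ) % 3 = 2) := fun h => hs (Or.inr ⟨h.2, h.1⟩)
      simp only [if_neg h1, if_neg h2]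
    unfold Dl
    rw [key, key]
    simp

theorem shape_test (hn : 3 ≤ n) {K B : Fin n → Fin n → ℕ} {H : Inst n → ℝ} (hH : IsTest K B H)
    (i j : Fin n) (hi : (i : ℕ) % 3 = 0) (hj : (j : ℕ) % 3 = 1) :
    ShapeR H i j (K i j) (B i j) ∅ := by
  obtain ⟨φ, hφ⟩ := hH (fl n) i j hi hj
  refine ⟨fun b l a => φ (b l.1) l.2 a, fun _ _ => 0, fun _ _ _ => rfl, fun τ => ?_⟩
  have key : ∀ e d : Bool, ∃ (c : ℝ) (l : Fin (K i j) → ℝ) (b : Fin (2 ^ B i j)), ∀ a : ℤ,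
      |a| ≤ 100 * n → H (ci i j τ e d a) = c + ∑ s, l s * φ b s a := by
    intro e d
    obtain ⟨c, l, b, h⟩ := hφ (ws i j (fun _ => e) (fun v => d == τ v) 0)
    refine ⟨c, l, b, fun a ha => ?_⟩
    have e1 : ci i j τ e d a = ⟨fl n, put (ws i j (fun _ => e) (fun v => d == τ v) 0) i j a⟩ := by
      rw [← ws_put i j hi hj]
      rfl
    have hv := ci_valid hn i j τ e d a ha
    rw [e1] at hv ⊢
    exact h a hv
  obtain ⟨c1, d1, b1, h1⟩ := key true true
  obtain ⟨c2, d2, b2, h2⟩ := key false false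
  obtain ⟨c3, d3, b3, h3⟩ := key true false
  obtain ⟨c4, d4, b4, h4⟩ := key false true
  refine ⟨c1 + c2 - c3 - c4, fun l => (![d1, d2, fun s => -d3 s, fun s => -d4 s] : Fin 4 →
    Fin (K i j) → ℝ) l.1 l.2, ![b1, b2, b3, b4], fun a ha => ?_⟩
  unfold Dl
  rw [h1 a ha, h2 a ha, h3 a ha, h4 a ha, Fintype.sum_prod_type, Fin.sum_univ_four]
  simp only [Matrix.cons_val_zero, Matrix.cons_val_one, Matrix.cons_val, neg_mul,
    sum_neg_distrib]
  ring

open Classical in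
/-- The positions that are seen together with the cell `i j`. -/
noncomputable def seen (Q : Finset (Fin n × Fin n)) (i j : Fin n) : Finset (Fin n) :=
  univ.filter fun k => (k : ℕ) % 3 = 2 ∧ Has Q i j ∧ Has Q i k

theorem shape_view (hn : 3 ≤ n) (H : Inst n → ℝ) (Q : Finset (Fin n × Fin n))
    (hQ : ∀ w w' : Wts n, (⟨fl n, w⟩ : Inst n).Valid → (⟨fl n, w'⟩ : Inst n).Valid →
      (∀ u v : Fin n, Side 1 2 u v ∨ Has Q u v → w u v = w' u v) → H ⟨fl n, w⟩ = H ⟨fl n, w'⟩)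
    (i j : Fin n) (hi : (i : ℕ) % 3 = 0) (hj : (j : ℕ) % 3 = 1) :
    ShapeR H i j 0 0 (seen Q i j) := by
  classical
  by_cases hA : Has Q i j
  · refine shape_of_T hn H i j _ fun τ τ' hτ e d a ha => ?_
    refine hQ _ _ (ci_valid hn i j τ e d a ha) (ci_valid hn i j τ' e d a ha) fun u v huv => ?_
    refine ws_congr (fun _ => rfl) (fun _ _ => rfl) (fun _ _ => rfl) (fun hu hv => ?_)
      (fun hv hu => ?_)
    · have h1 : Has Q i u := by
        rcases huv with h | h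
        · subst hv
          unfold Side at h
          omega
        · subst hv
          exact h.symm
      rw [hτ u (mem_filter.2 ⟨mem_univ _, hu, hA, h1⟩)]
    · have h1 : Has Q i v := by
        rcases huv with h | h
        · subst hu
          unfold Side at h
          omega
        · subst hu
          exact h
      rw [hτ v (mem_filter.2 ⟨mem_univ _, hv, hA, h1⟩)]
  · refine shape_const hn H i j (fun τ e d a ha => ?_) _
    have h0 : |(0 : ℤ)| ≤ 100 * n := by simp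
    refine hQ _ _ (ci_valid hn i j τ e d a ha) (ci_valid hn i j τ e d 0 h0) fun u v huv => ?_
    refine ws_congr (fun h => ?_) (fun _ _ => rfl) (fun _ _ => rfl) (fun _ _ => rfl)
      (fun _ _ => rfl)
    exfalso
    rcases huv with h1 | h1
    · rcases h with ⟨rfl, rfl⟩ | ⟨rfl, rfl⟩ <;> unfold Side at h1 <;> omega
    · rcases h with ⟨rfl, rfl⟩ | ⟨rfl, rfl⟩
      · exact hA h1
      · exact hA h1.symm

theorem pairs_eq (Q : Finset (Fin n × Fin n)) : pairs Q =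
    ∑ i : Fin n, ∑ j : Fin n, if (i : ℕ) % 3 = 0 ∧ (j : ℕ) % 3 = 1 then (seen Q i j).card
      else 0 := by
  classical
  unfold pairs seen
  rw [card_filter, Fintype.sum_prod_type]
  refine sum_congr rfl fun i _ => ?_
  rw [Fintype.sum_prod_type]
  refine sum_congr rfl fun j _ => ?_
  by_cases h : (i : ℕ) % 3 = 0 ∧ (j : ℕ) % 3 = 1
  · rw [if_pos h, card_filter]
    refine sum_congr rfl fun k _ => ?_
    refine if_congr ?_ rfl rfl
    tauto
  · rw [if_neg h]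
    refine sum_eq_zero fun k _ => if_neg ?_
    tauto

/-- The shape of a voter and its price. -/
theorem shape_price (hn : 3 ≤ n) (H : Inst n → ℝ) (κ : ℕ) (hκ : PriceR H κ) :
    ∃ (K B : Fin n → Fin n → ℕ) (T : Fin n → Fin n → Finset (Fin n)),
      (∀ i j : Fin n, (i : ℕ) % 3 = 0 → (j : ℕ) % 3 = 1 →
        ShapeR H i j (K i j) (B i j) (T i j)) ∧
      ∑ i : Fin n, ∑ j : Fin n, (if (i : ℕ) % 3 = 0 ∧ (j : ℕ) % 3 = 1 then
        K i j + B i j + (T i j).card else 0) ≤ κ := by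
  rcases hκ with ⟨rfl, h⟩ | ⟨K, B, h, rfl⟩ | h
  · refine ⟨fun _ _ => 0, fun _ _ => 0, fun _ _ => ∅, fun i j _ _ => shape_free hn H h i j, ?_⟩
    simp
  · refine ⟨K, B, fun _ _ => ∅, fun i j hi hj => shape_test hn h i j hi hj, ?_⟩
    unfold total
    rw [← sum_add_distrib]
    refine sum_le_sum fun i _ => ?_
    rw [← sum_add_distrib]
    refine sum_le_sum fun j _ => ?_
    split_ifs <;> simp
  · obtain ⟨Q, hQ, hH⟩ := h (fl n)
    refine ⟨fun _ _ => 0, fun _ _ => 0, seen Q, fun i j hi hj => shape_view hn H Q hH i j hi hj,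
      ?_⟩
    rw [pairs_eq] at hQ
    simpa using hQ

end Pool.Agent.Helper21.MP2
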