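import Pool.Agent.Helper21.MP.Defs
import Pool.Agent.Helper53.TC5.Ign
import Pool.Agent.Helper95.RV.Upper

/-!
# The instances, and what the voters see of them
-/

set_option autoImplicit false

open Finset

namespace Pool.Agent.Helper21.MP

open Pool.Agent.Helper22.ETModel Pool.Agent.Helper8.VT Pool.Agent.Helper8.UV
open Pool.Agent.Helper53.TC5

variable {n : ℕ}

def bit (b : Bool) : ℤ := if b then 1 else 0

theorem bit_cases (b : Bool) : bit b = 0 ∨ bit b = 1 := by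
  cases b
  · left; rfl
  · right; rfl

/-- the weight of `u v`, if the residue of `u` is smaller than that of `v` -/
def wo (i j : Fin n) (τ : Fin n → Bool) (e d : Bool) (a : ℤ) (u v : Fin n) : ℤ :=
  if (u : ℕ) % 3 = 0 ∧ (v : ℕ) % 3 = 1 then (if u = i ∧ v = j then a else 100 * n)
  else if (u : ℕ) % 3 = 1 ∧ (v : ℕ) % 3 = 2 then (if u = j then bit e else 0)
  else if (u : ℕ) % 3 = 0 ∧ (v : ℕ) % 3 = 2 then
    (if u = i then -(4 * ((v : ℕ) + 1 : ℤ)) - bit (d == τ v) else 0)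
  else 0

def ws (i j : Fin n) (τ : Fin n → Bool) (e d : Bool) (a : ℤ) : Wts n := fun u v =>
  if (u : ℕ) % 3 ≤ (v : ℕ) % 3 then wo i j τ e d a u v else wo i j τ e d a v u

def fl (n : ℕ) : Flags n := fun u v => decide ((u : ℕ) % 3 ≠ (v : ℕ) % 3)

def inst (i j : Fin n) (τ : Fin n → Bool) (e d : Bool) (a : ℤ) : Inst n :=
  ⟨fl n, ws i j τ e d a⟩

theorem wo_same (i j : Fin n) (τ : Fin n → Bool) (e d : Bool) (a : ℤ) (u v : Fin n)
    (h : (u : ℕ) % 3 = (v : ℕ) % 3) : wo i j τ e d a u v = 0 := by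
  unfold wo
  rw [if_neg (by omega), if_neg (by omega), if_neg (by omega)]

theorem ws_comm (i j : Fin n) (τ : Fin n → Bool) (e d : Bool) (a : ℤ) (u v : Fin n) :
    ws i j τ e d a u v = ws i j τ e d a v u := by
  unfold ws
  rcases lt_trichotomy ((u : ℕ) % 3) ((v : ℕ) % 3) with h | h | h
  · rw [if_pos h.le, if_neg (by omega)]
  · rw [if_pos h.le, if_pos h.ge, wo_same _ _ _ _ _ _ _ _ h, wo_same _ _ _ _ _ _ _ _ h.symm]
  · rw [if_neg (by omega), if_pos h.le]

theorem wo_abs (i j : Fin n) (τ : Fin n → Bool) (e d : Bool) (a : ℤ)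
    (ha : |a| ≤ 100 * n) (u v : Fin n) : |wo i j τ e d a u v| ≤ 100 * n := by
  have hn : (1 : ℤ) ≤ n := by
    have := u.isLt
    omega
  unfold wo
  split_ifs
  · exact ha
  · rw [abs_of_nonneg (by positivity)]
  · rcases bit_cases e with h | h <;> rw [h] <;> norm_num <;> omega
  · simp
  · have hv : ((v : ℕ) : ℤ) < n := by exact_mod_cast v.isLt
    have hv0 : (0 : ℤ) ≤ ((v : ℕ) : ℤ) := by positivity
    rw [abs_le]
    rcases bit_cases (d == τ v) with h | h <;> rw [h] <;> constructor <;> linarith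
  · simp
  · simp

theorem pow_big (hn : 3 ≤ n) : (100 * n : ℤ) ≤ (n : ℤ) ^ 300 := by
  have h3 : (3 : ℤ) ≤ n := by exact_mod_cast hn
  calc (100 * n : ℤ) ≤ 3 ^ 5 * n := by nlinarith
    _ ≤ (n : ℤ) ^ 5 * n := by
        apply mul_le_mul_of_nonneg_right _ (by positivity)
        exact pow_le_pow_left₀ (by norm_num) h3 5
    _ = (n : ℤ) ^ 6 := by ring
    _ ≤ (n : ℤ) ^ 300 := pow_le_pow_right₀ (by linarith) (by norm_num)

theorem inst_valid (hn : 3 ≤ n) (i j : Fin n) (τ : Fin n → Bool) (e d : Bool) (a : ℤ)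
    (ha : |a| ≤ 100 * n) : (inst i j τ e d a).Valid := by
  refine ⟨fun u v => ?_, fun u => ?_, ws_comm i j τ e d a, fun u v => ?_⟩
  · change decide _ = decide _
    congr 1
    exact propext ne_comm
  · change decide _ = false
    simp
  · refine le_trans ?_ (pow_big hn)
    change |ws i j τ e d a u v| ≤ _
    unfold ws
    split_ifs
    · exact wo_abs i j τ e d a ha u v
    · exact wo_abs i j τ e d a ha v u

theorem inst_tripartite (i j : Fin n) (τ : Fin n → Bool) (e d : Bool) (a : ℤ) :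
    Tripartite (inst i j τ e d a) := by
  intro u v
  change decide _ = true ↔ _
  rw [decide_eq_true_iff]

theorem pt_abs (k : Fin n) : |(4 * ((k : ℕ) + 1 : ℤ))| ≤ 100 * n := by
  have hk : ((k : ℕ) : ℤ) < n := by exact_mod_cast k.isLt
  rw [abs_of_nonneg (by positivity)]
  linarith

theorem inst_yes (hn : 3 ≤ n) (i j : Fin n) (hi : (i : ℕ) % 3 = 0) (hj : (j : ℕ) % 3 = 1)
    (τ : Fin n → Bool) (e d : Bool) (k : Fin n) (hk : (k : ℕ) % 3 = 2) :
    (inst i j τ e d (4 * ((k : ℕ) + 1 : ℤ))).Yes ↔ (e == d) = τ k := by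
  rw [Pool.Agent.Helper95.RV.yes_iff _ (inst_valid hn i j τ e d _ (pt_abs k))
    (inst_tripartite i j τ e d _)]
  have h01 : ∀ u v : Fin n, (u : ℕ) % 3 = 0 → (v : ℕ) % 3 = 1 →
      (inst i j τ e d (4 * ((k : ℕ) + 1 : ℤ))).wt u v =
        if u = i ∧ v = j then 4 * ((k : ℕ) + 1 : ℤ) else 100 * n := by
    intro u v hu hv
    change ws i j τ e d _ u v = _
    unfold ws wo
    rw [if_pos (by omega), if_pos ⟨hu, hv⟩]
  have h12 : ∀ u v : Fin n, (u : ℕ) % 3 = 1 → (v : ℕ) % 3 = 2 →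
      (inst i j τ e d (4 * ((k : ℕ) + 1 : ℤ))).wt u v = if u = j then bit e else 0 := by
    intro u v hu hv
    change ws i j τ e d _ u v = _
    unfold ws wo
    rw [if_pos (by omega), if_neg (by omega), if_pos ⟨hu, hv⟩]
  have h02 : ∀ u v : Fin n, (u : ℕ) % 3 = 0 → (v : ℕ) % 3 = 2 →
      (inst i j τ e d (4 * ((k : ℕ) + 1 : ℤ))).wt u v =
        if u = i then -(4 * ((v : ℕ) + 1 : ℤ)) - bit (d == τ v) else 0 := by
    intro u v hu hv
    change ws i j τ e d _ u v = _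
    unfold ws wo
    rw [if_pos (by omega), if_neg (by omega), if_neg (by omega), if_pos ⟨hu, hv⟩]
  constructor
  · rintro ⟨u, v, z, hu, hv, hz, hs⟩
    rw [h01 u v hu hv, h12 v z hv hz, h02 u z hu hz] at hs
    have hzn : ((z : ℕ) : ℤ) < n := by exact_mod_cast z.isLt
    have hz0 : (0 : ℤ) ≤ ((z : ℕ) : ℤ) := by positivity
    have b1 := bit_cases e
    have b2 := bit_cases (d == τ z)
    by_cases h : u = i ∧ v = j
    · rw [if_pos h, if_pos h.2, if_pos h.1] at hs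
      have hkz : (k : ℕ) = z := by omega
      have hkz' : k = z := Fin.ext hkz
      subst hkz'
      have h1 : bit e = bit (d == τ k) := by linarith
      revert h1
      cases e <;> cases d <;> cases τ k <;> simp [bit]
    · rw [if_neg h] at hs
      exfalso
      split_ifs at hs <;> omega
  · intro h
    refine ⟨i, j, k, hi, hj, hk, ?_⟩
    rw [h01 i j hi hj, h12 j k hj hk, h02 i k hi hk, if_pos ⟨rfl, rfl⟩, if_pos rfl, if_pos rfl]
    have h1 : bit e = bit (d == τ k) := by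
      revert h
      cases e <;> cases d <;> cases τ k <;> simp [bit]
    rw [← h1]
    ring

theorem ws_put (i j : Fin n) (hi : (i : ℕ) % 3 = 0) (hj : (j : ℕ) % 3 = 1)
    (τ : Fin n → Bool) (e d : Bool) (a : ℤ) :
    ws i j τ e d a = put (ws i j τ e d 0) i j a := by
  funext u v
  unfold put
  by_cases h : (u = i ∧ v = j) ∨ (u = j ∧ v = i)
  · rw [if_pos h]
    rcases h with ⟨rfl, rfl⟩ | ⟨rfl, rfl⟩
    · unfold ws wo
      rw [if_pos (by omega), if_pos ⟨hi, hj⟩, if_pos ⟨rfl, rfl⟩]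
    · unfold ws wo
      rw [if_neg (by omega), if_pos ⟨hi, hj⟩, if_pos ⟨rfl, rfl⟩]
  · rw [if_neg h]
    push Not at h
    unfold ws wo
    have h1 : ¬ (u = i ∧ v = j) := fun h' => h.1 h'.1 h'.2
    have h2 : ¬ (v = i ∧ u = j) := fun h' => h.2 h'.2 h'.1
    rw [if_neg h1, if_neg h2, if_neg h1, if_neg h2]

/-- the fourfold difference -/
def Dl (H : Inst n → ℝ) (i j : Fin n) (τ : Fin n → Bool) (a : ℤ) : ℝ :=
  H (inst i j τ true true a) + H (inst i j τ false false a) - H (inst i j τ true false a) -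
    H (inst i j τ false true a)

/-- the cell `u v` belongs to `Q` -/
def Has (Q : Finset (Fin n × Fin n)) (u v : Fin n) : Prop := (u, v) ∈ Q ∨ (v, u) ∈ Q

/-- The form of the fourfold difference of a voter. -/
def Shape (H : Inst n → ℝ) (K : ℕ) (Q : Finset (Fin n × Fin n)) : Prop :=
  ∀ i j : Fin n, (i : ℕ) % 3 = 0 → (j : ℕ) % 3 = 1 →
    ∃ (φ : Fin K → ℤ → ℝ) (u : (Fin n → Bool) → ℤ → ℝ),
      (∀ τ τ' : Fin n → Bool, (∀ k : Fin n, (k : ℕ) % 3 = 2 → Has Q i j → Has Q i k →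
        τ k = τ' k) → u τ = u τ') ∧
      ∀ τ, ∃ (c : ℝ) (d : Fin K → ℝ), ∀ a : ℤ, |a| ≤ 100 * n →
        Dl H i j τ a = c + ∑ l, d l * φ l a + u τ a

theorem shape_free (hn : 3 ≤ n) (H : Inst n → ℝ) (hH : IsFree H) : Shape H 0 ∅ := by
  intro i j hi hj
  refine ⟨fun l => l.elim0, fun _ _ => 0, fun _ _ _ => rfl, fun τ => ?_⟩
  obtain ⟨p, q, hpq, hq, hI⟩ := ign_of_free H hH
  have hV := fun e d a ha => inst_valid hn i j τ e d a ha
  have hcase : (p = 0 ∧ q = 1) ∨ (p = 1 ∧ q = 2) ∨ (p = 0 ∧ q = 2) := by omega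
  rcases hcase with ⟨rfl, rfl⟩ | ⟨rfl, rfl⟩ | ⟨rfl, rfl⟩
  · refine ⟨Dl H i j τ 0, fun l => l.elim0, fun a ha => ?_⟩
    have h0 : |(0 : ℤ)| ≤ 100 * n := by simp
    have key : ∀ e d, H (inst i j τ e d a) = H (inst i j τ e d 0) := by
      intro e d
      refine hI _ _ (hV e d a ha) (hV e d 0 h0) rfl fun u v hs => ?_
      change ws i j τ e d a u v = ws i j τ e d 0 u v
      unfold ws wo
      have h1 : ¬ ((u : ℕ) % 3 = 0 ∧ (v : ℕ) % 3 = 1) := fun h => hs (Or.inl h)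
      have h2 : ¬ ((v : ℕ) % 3 = 0 ∧ (u : ℕ) % 3 = 1) := fun h => hs (Or.inr ⟨h.2, h.1⟩)
      simp only [if_neg h1, if_neg h2]
    simp [Dl, key]
  · refine ⟨0, fun l => l.elim0, fun a ha => ?_⟩
    have key : ∀ d, H (inst i j τ true d a) = H (inst i j τ false d a) := by
      intro d
      refine hI _ _ (hV _ d a ha) (hV _ d a ha) rfl fun u v hs => ?_
      change ws i j τ true d a u v = ws i j τ false d a u v
      unfold ws wo
      have h1 : ¬ ((u : ℕ) % 3 = 1 ∧ (v : ℕ) % 3 = 2) := fun h => hs (Or.inl h)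
      have h2 : ¬ ((v : ℕ) % 3 = 1 ∧ (u : ℕ) % 3 = 2) := fun h => hs (Or.inr ⟨h.2, h.1⟩)
      simp only [if_neg h1, if_neg h2]
    simp [Dl, key]
  · refine ⟨0, fun l => l.elim0, fun a ha => ?_⟩
    have key : ∀ e, H (inst i j τ e true a) = H (inst i j τ e false a) := by
      intro e
      refine hI _ _ (hV e _ a ha) (hV e _ a ha) rfl fun u v hs => ?_
      change ws i j τ e true a u v = ws i j τ e false a u v
      unfold ws wo
      have h1 : ¬ ((u : ℕ) % 3 = 0 ∧ (v : ℕ) % 3 = 2) := fun h => hs (Or.inl h)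
      have h2 : ¬ ((v : ℕ) % 3 = 0 ∧ (u : ℕ) % 3 = 2) := fun h => hs (Or.inr ⟨h.2, h.1⟩)
      simp only [if_neg h1, if_neg h2]
    simp [Dl, key]

theorem shape_low (hn : 3 ≤ n) (K : ℕ) (H : Inst n → ℝ) (hH : IsLow K H) : Shape H K ∅ := by
  intro i j hi hj
  obtain ⟨φ, hφ⟩ := hH (fl n) i j hi hj
  refine ⟨φ, fun _ _ => 0, fun _ _ _ => rfl, fun τ => ?_⟩
  obtain ⟨c1, d1, h1⟩ := hφ (ws i j τ true true 0)
  obtain ⟨c2, d2, h2⟩ := hφ (ws i j τ false false 0)
  obtain ⟨c3, d3, h3⟩ := hφ (ws i j τ true false 0)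
  obtain ⟨c4, d4, h4⟩ := hφ (ws i j τ false true 0)
  refine ⟨c1 + c2 - c3 - c4, fun l => d1 l + d2 l - d3 l - d4 l, fun a ha => ?_⟩
  have hV : ∀ e d, (⟨fl n, put (ws i j τ e d 0) i j a⟩ : Inst n).Valid := by
    intro e d
    rw [← ws_put i j hi hj]
    exact inst_valid hn i j τ e d a ha
  have e1 : ∀ e d, inst i j τ e d a = ⟨fl n, put (ws i j τ e d 0) i j a⟩ := by
    intro e d
    rw [← ws_put i j hi hj]
    rfl
  unfold Dl
  rw [e1, e1, e1, e1, h1 a (hV _ _), h2 a (hV _ _), h3 a (hV _ _), h4 a (hV _ _)]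
  have e2 : ∑ l, (d1 l + d2 l - d3 l - d4 l) * φ l a =
      ∑ l, d1 l * φ l a + ∑ l, d2 l * φ l a - ∑ l, d3 l * φ l a - ∑ l, d4 l * φ l a := by
    rw [← sum_add_distrib, ← sum_sub_distrib, ← sum_sub_distrib]
    exact sum_congr rfl fun l _ => by ring
  rw [e2]
  ring

theorem shape_local (hn : 3 ≤ n) (H : Inst n → ℝ) (Q : Finset (Fin n × Fin n))
    (hQ : ∀ w w' : Wts n, (⟨fl n, w⟩ : Inst n).Valid → (⟨fl n, w'⟩ : Inst n).Valid →
      (∀ p ∈ Q, w p.1 p.2 = w' p.1 p.2) → H ⟨fl n, w⟩ = H ⟨fl n, w'⟩) : Shape H 0 Q := by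
  classical
  intro i j hi hj
  by_cases hA : Has Q i j
  · refine ⟨fun l => l.elim0, fun τ a => if |a| ≤ 100 * n then Dl H i j τ a else 0, ?_, ?_⟩
    · intro τ τ' hτ
      funext a
      show (if |a| ≤ 100 * n then Dl H i j τ a else 0) = if |a| ≤ 100 * n then Dl H i j τ' a else 0
      by_cases ha : |a| ≤ 100 * n
      · rw [if_pos ha, if_pos ha]
        have key : ∀ e d, H (inst i j τ e d a) = H (inst i j τ' e d a) := by
          intro e d
          refine hQ _ _ (inst_valid hn i j τ e d a ha) (inst_valid hn i j τ' e d a ha) ?_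
          rintro ⟨u, v⟩ hp
          change ws i j τ e d a u v = ws i j τ' e d a u v
          unfold ws wo
          by_cases h1 : (u : ℕ) % 3 = 0 ∧ (v : ℕ) % 3 = 2 ∧ u = i
          · have h2 := hτ v h1.2.1 hA (Or.inl (by rw [← h1.2.2]; exact hp))
            rw [h2]
            by_cases h3 : (v : ℕ) % 3 = 0 ∧ (u : ℕ) % 3 = 2 ∧ v = i
            · omega
            · have h4 : ¬ (v : ℕ) % 3 = 0 := by omega
              simp [h4]
          · by_cases h3 : (v : ℕ) % 3 = 0 ∧ (u : ℕ) % 3 = 2 ∧ v = i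
            · have h2 := hτ u h3.2.1 hA (Or.inr (by rw [← h3.2.2]; exact hp))
              rw [h2]
              have h4 : ¬ (u : ℕ) % 3 = 0 := by omega
              simp [h4]
            · split_ifs <;> first | rfl | (exfalso; simp_all)
        simp [Dl, key]
      · rw [if_neg ha, if_neg ha]
    · intro τ
      refine ⟨0, fun l => l.elim0, fun a ha => ?_⟩
      simp [ha]
  · refine ⟨fun l => l.elim0, fun _ _ => 0, fun _ _ _ => rfl, fun τ => ?_⟩
    refine ⟨Dl H i j τ 0, fun l => l.elim0, fun a ha => ?_⟩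
    have h0 : |(0 : ℤ)| ≤ 100 * n := by simp
    have key : ∀ e d, H (inst i j τ e d a) = H (inst i j τ e d 0) := by
      intro e d
      refine hQ _ _ (inst_valid hn i j τ e d a ha) (inst_valid hn i j τ e d 0 h0) ?_
      rintro ⟨u, v⟩ hp
      change ws i j τ e d a u v = ws i j τ e d 0 u v
      unfold ws wo
      have h1 : ¬ (u = i ∧ v = j) := fun h => hA (Or.inl (by rw [← h.1, ← h.2]; exact hp))
      have h2 : ¬ (v = i ∧ u = j) := fun h => hA (Or.inr (by rw [← h.1, ← h.2]; exact hp))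
      simp only [if_neg h1, if_neg h2]
    simp [Dl, key]

end Pool.Agent.Helper21.MP
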