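import Pool.Agent.Helper21.MP.Defs2
import Pool.Agent.Helper53.TC5.Ign
import Pool.Agent.Helper95.RV.Upper

/-!
# The instances
-/

set_option autoImplicit false

open Finset

namespace Pool.Agent.Helper21.MP2

open Pool.Agent.Helper22.ETModel Pool.Agent.Helper8.VT Pool.Agent.Helper8.UV
open Pool.Agent.Helper53.TC5

variable {n : ℕ}

def bit (b : Bool) : ℤ := if b then 1 else 0

theorem bit_cases (b : Bool) : bit b = 0 ∨ bit b = 1 := by
  cases b
  · left; rfl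
  · right; rfl

/-- the weight of `u v`, if the residue of `u` is smaller than that of `v` -/
def wo (i j : Fin n) (σ σ' : Fin n → Bool) (a : ℤ) (u v : Fin n) : ℤ :=
  if (u : ℕ) % 3 = 0 ∧ (v : ℕ) % 3 = 1 then (if u = i ∧ v = j then a else 100 * n)
  else if (u : ℕ) % 3 = 1 ∧ (v : ℕ) % 3 = 2 then (if u = j then bit (σ v) else 0)
  else if (u : ℕ) % 3 = 0 ∧ (v : ℕ) % 3 = 2 then
    (if u = i then -(4 * ((v : ℕ) + 1 : ℤ)) - bit (σ' v) else 0)
  else 0

def ws (i j : Fin n) (σ σ' : Fin n → Bool) (a : ℤ) : Wts n := fun u v =>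
  if (u : ℕ) % 3 ≤ (v : ℕ) % 3 then wo i j σ σ' a u v else wo i j σ σ' a v u

def fl (n : ℕ) : Flags n := fun u v => decide ((u : ℕ) % 3 ≠ (v : ℕ) % 3)

/-- The instances: `w i j = a`, `w j k = bit (σ k)`, `w i k = - 4 (k + 1) - bit (σ' k)`. -/
def gi (i j : Fin n) (σ σ' : Fin n → Bool) (a : ℤ) : Inst n :=
  ⟨fl n, ws i j σ σ' a⟩

theorem wo_same (i j : Fin n) (σ σ' : Fin n → Bool) (a : ℤ) (u v : Fin n)
    (h : (u : ℕ) % 3 = (v : ℕ) % 3) : wo i j σ σ' a u v = 0 := by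
  unfold wo
  rw [if_neg (by omega), if_neg (by omega), if_neg (by omega)]

theorem ws_comm (i j : Fin n) (σ σ' : Fin n → Bool) (a : ℤ) (u v : Fin n) :
    ws i j σ σ' a u v = ws i j σ σ' a v u := by
  unfold ws
  rcases lt_trichotomy ((u : ℕ) % 3) ((v : ℕ) % 3) with h | h | h
  · rw [if_pos h.le, if_neg (by omega)]
  · rw [if_pos h.le, if_pos h.ge, wo_same _ _ _ _ _ _ _ h, wo_same _ _ _ _ _ _ _ h.symm]
  · rw [if_neg (by omega), if_pos h.le]

theorem wo_abs (i j : Fin n) (σ σ' : Fin n → Bool) (a : ℤ)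
    (ha : |a| ≤ 100 * n) (u v : Fin n) : |wo i j σ σ' a u v| ≤ 100 * n := by
  have hn : (1 : ℤ) ≤ n := by
    have := u.isLt
    omega
  unfold wo
  split_ifs
  · exact ha
  · rw [abs_of_nonneg (by positivity)]
  · rcases bit_cases (σ v) with h | h <;> rw [h] <;> norm_num
    omega
  · simp
  · have hv : ((v : ℕ) : ℤ) < n := by exact_mod_cast v.isLt
    have hv0 : (0 : ℤ) ≤ ((v : ℕ) : ℤ) := by positivity
    rw [abs_le]
    rcases bit_cases (σ' v) with h | h <;> rw [h] <;> constructor <;> linarith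
  · simp
  · simp

theorem pow_big (hn : 3 ≤ n) : (100 * n : ℤ) ≤ (n : ℤ) ^ 300 := by
  have h3 : (3 : ℤ) ≤ n := by exact_mod_cast hn
  calc (100 * n : ℤ) ≤ 3 ^ 5 * n := by nlinarith
    _ ≤ (n : ℤ) ^ 5 * n := by
        apply mul_le_mul_of_nonneg_right _ (by positivity)
        exact pow_le_pow_left₀ (by norm_num) h3 5
    _ = (n : ℤ) ^ 6 := by ring
    _ ≤ (n : ℤ) ^ 300 := pow_le_pow_right₀ (by linarith) (by norm_num)

theorem gi_valid (hn : 3 ≤ n) (i j : Fin n) (σ σ' : Fin n → Bool) (a : ℤ)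
    (ha : |a| ≤ 100 * n) : (gi i j σ σ' a).Valid := by
  refine ⟨fun u v => ?_, fun u => ?_, ws_comm i j σ σ' a, fun u v => ?_⟩
  · change decide _ = decide _
    congr 1
    exact propext ne_comm
  · change decide _ = false
    simp
  · refine le_trans ?_ (pow_big hn)
    change |ws i j σ σ' a u v| ≤ _
    unfold ws
    split_ifs
    · exact wo_abs i j σ σ' a ha u v
    · exact wo_abs i j σ σ' a ha v u

theorem gi_tripartite (i j : Fin n) (σ σ' : Fin n → Bool) (a : ℤ) :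
    Tripartite (gi i j σ σ' a) := by
  intro u v
  change decide _ = true ↔ _
  rw [decide_eq_true_iff]

theorem pt_abs (k : Fin n) : |(4 * ((k : ℕ) + 1 : ℤ))| ≤ 100 * n := by
  have hk : ((k : ℕ) : ℤ) < n := by exact_mod_cast k.isLt
  rw [abs_of_nonneg (by positivity)]
  linarith

theorem gi_yes (hn : 3 ≤ n) (i j : Fin n) (hi : (i : ℕ) % 3 = 0) (hj : (j : ℕ) % 3 = 1)
    (σ σ' : Fin n → Bool) (k : Fin n) (hk : (k : ℕ) % 3 = 2) :
    (gi i j σ σ' (4 * ((k : ℕ) + 1 : ℤ))).Yes ↔ σ k = σ' k := by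
  rw [Pool.Agent.Helper95.RV.yes_iff _ (gi_valid hn i j σ σ' _ (pt_abs k))
    (gi_tripartite i j σ σ' _)]
  have h01 : ∀ u v : Fin n, (u : ℕ) % 3 = 0 → (v : ℕ) % 3 = 1 →
      (gi i j σ σ' (4 * ((k : ℕ) + 1 : ℤ))).wt u v =
        if u = i ∧ v = j then 4 * ((k : ℕ) + 1 : ℤ) else 100 * n := by
    intro u v hu hv
    change ws i j σ σ' _ u v = _
    unfold ws wo
    rw [if_pos (by omega), if_pos ⟨hu, hv⟩]
  have h12 : ∀ u v : Fin n, (u : ℕ) % 3 = 1 → (v : ℕ) % 3 = 2 →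
      (gi i j σ σ' (4 * ((k : ℕ) + 1 : ℤ))).wt u v = if u = j then bit (σ v) else 0 := by
    intro u v hu hv
    change ws i j σ σ' _ u v = _
    unfold ws wo
    rw [if_pos (by omega), if_neg (by omega), if_pos ⟨hu, hv⟩]
  have h02 : ∀ u v : Fin n, (u : ℕ) % 3 = 0 → (v : ℕ) % 3 = 2 →
      (gi i j σ σ' (4 * ((k : ℕ) + 1 : ℤ))).wt u v =
        if u = i then -(4 * ((v : ℕ) + 1 : ℤ)) - bit (σ' v) else 0 := by
    intro u v hu hv
    change ws i j σ σ' _ u v = _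
    unfold ws wo
    rw [if_pos (by omega), if_neg (by omega), if_neg (by omega), if_pos ⟨hu, hv⟩]
  constructor
  · rintro ⟨u, v, z, hu, hv, hz, hs⟩
    rw [h01 u v hu hv, h12 v z hv hz, h02 u z hu hz] at hs
    have hzn : ((z : ℕ) : ℤ) < n := by exact_mod_cast z.isLt
    have hz0 : (0 : ℤ) ≤ ((z : ℕ) : ℤ) := by positivity
    have b1 := bit_cases (σ z)
    have b2 := bit_cases (σ' z)
    by_cases h : u = i ∧ v = j
    · rw [if_pos h, if_pos h.2, if_pos h.1] at hs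
      have hkz : (k : ℕ) = z := by omega
      have hkz' : k = z := Fin.ext hkz
      subst hkz'
      have h1 : bit (σ k) = bit (σ' k) := by linarith
      revert h1
      cases σ k <;> cases σ' k <;> simp [bit]
    · rw [if_neg h] at hs
      exfalso
      split_ifs at hs <;> omega
  · intro h
    refine ⟨i, j, k, hi, hj, hk, ?_⟩
    rw [h01 i j hi hj, h12 j k hj hk, h02 i k hi hk, if_pos ⟨rfl, rfl⟩, if_pos rfl, if_pos rfl, h]
    ring

theorem ws_put (i j : Fin n) (hi : (i : ℕ) % 3 = 0) (hj : (j : ℕ) % 3 = 1)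
    (σ σ' : Fin n → Bool) (a : ℤ) :
    ws i j σ σ' a = put (ws i j σ σ' 0) i j a := by
  funext u v
  unfold put
  by_cases h : (u = i ∧ v = j) ∨ (u = j ∧ v = i)
  · rw [if_pos h]
    rcases h with ⟨rfl, rfl⟩ | ⟨rfl, rfl⟩
    · unfold ws wo
      rw [if_pos (by omega), if_pos ⟨hi, hj⟩, if_pos ⟨rfl, rfl⟩]
    · unfold ws wo
      rw [if_neg (by omega), if_pos ⟨hi, hj⟩, if_pos ⟨rfl, rfl⟩]
  · rw [if_neg h]
    push Not at h
    unfold ws wo
    have h1 : ¬ (u = i ∧ v = j) := fun h' => h.1 h'.1 h'.2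
    have h2 : ¬ (v = i ∧ u = j) := fun h' => h.2 h'.2 h'.1
    rw [if_neg h1, if_neg h2, if_neg h1, if_neg h2]

/-- A low voter on the instances. -/
theorem gi_low (hn : 3 ≤ n) {K : Fin n → Fin n → ℕ} {H : Inst n → ℝ} (hH : IsLow K H)
    (i j : Fin n) (hi : (i : ℕ) % 3 = 0) (hj : (j : ℕ) % 3 = 1) :
    ∃ φ : Fin (K i j) → ℤ → ℝ, ∀ σ σ' : Fin n → Bool, ∃ (c : ℝ) (d : Fin (K i j) → ℝ), ∀ a : ℤ,
      |a| ≤ 100 * n → H (gi i j σ σ' a) = c + ∑ l, d l * φ l a := by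
  obtain ⟨φ, hφ⟩ := hH (fl n) i j hi hj
  refine ⟨φ, fun σ σ' => ?_⟩
  obtain ⟨c, d, h⟩ := hφ (ws i j σ σ' 0)
  refine ⟨c, d, fun a ha => ?_⟩
  have e : gi i j σ σ' a = ⟨fl n, put (ws i j σ σ' 0) i j a⟩ := by
    rw [← ws_put i j hi hj]
    rfl
  have hv := gi_valid hn i j σ σ' a ha
  rw [e] at hv ⊢
  exact h a hv

/-- Which weights of the instances depend on what. -/
theorem ws_congr {i j : Fin n} {σ σ' τ τ' : Fin n → Bool} {a b : ℤ} {u v : Fin n}
    (h1 : (u = i ∧ v = j) ∨ (u = j ∧ v = i) → a = b)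
    (h2 : (u : ℕ) % 3 = 2 → v = j → σ u = τ u) (h3 : (v : ℕ) % 3 = 2 → u = j → σ v = τ v)
    (h4 : (u : ℕ) % 3 = 2 → v = i → σ' u = τ' u) (h5 : (v : ℕ) % 3 = 2 → u = i → σ' v = τ' v) :
    ws i j σ σ' a u v = ws i j τ τ' b u v := by
  unfold ws wo
  split_ifs with g1 g2 g3 g4 g5 g6 g7 g8 g9 g10 g11 g12
  all_goals first
    | rfl
    | exact h1 (Or.inl ⟨g3.1, g3.2⟩)
    | (rw [h3 (by tauto) (by tauto)])
    | (rw [h5 (by tauto) (by tauto)])
    | (rw [h2 (by tauto) (by tauto)])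
    | (rw [h4 (by tauto) (by tauto)])
    | exact h1 (by tauto)

end Pool.Agent.Helper21.MP2
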